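import Pool.Agent.H49SH.Ell

/-!
# The number of the large points on the conics is bounded
-/

set_option autoImplicit false

namespace Pool.Agent.H49SH

variable {a₁ a₂ a₃ e₁ e₂ e₃ ξ η m k x₁ x₂ x₃ y₁ y₂ y₃ : ℤ}

theorem natAbs_le_of {z : ℤ} {n : ℕ} (h : |z| ≤ (n : ℤ)) : z.natAbs ≤ n := by
  rw [Int.abs_eq_natAbs] at h
  exact_mod_cast h

theorem natAbs_le_natAbs_of {z w : ℤ} (h : |z| ≤ |w|) : z.natAbs ≤ w.natAbs := by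
  rw [Int.abs_eq_natAbs, Int.abs_eq_natAbs] at h
  exact_mod_cast h

theorem abs_tau {R : ℤ} (hR : 1 ≤ R) (b1 : |a₁| ≤ R) (b2 : |a₂| ≤ R) (b3 : |a₃| ≤ R) :
    |a₁ * a₂ * a₃| ≤ R ^ 3 := by
  rw [abs_mul, abs_mul]
  calc |a₁| * |a₂| * |a₃| ≤ R * R * R := by gcongr
    _ = R ^ 3 := by ring

theorem abs_ep {R e : ℤ} (c1 : |e₁| ≤ R) (c2 : |e₂| ≤ R) (c3 : |e₃| ≤ R) (he : |e| ≤ R) :
    |ep e₁ e₂ e₃ e| ≤ 18 * R := by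
  unfold ep
  rw [abs_le] at *
  constructor <;> linarith

theorem abs_cA {R : ℤ} (hR : 1 ≤ R) (b1 : |a₁| ≤ R) (b2 : |a₂| ≤ R) (b3 : |a₃| ≤ R)
    (c1 : |e₁| ≤ R) (c2 : |e₂| ≤ R) (c3 : |e₃| ≤ R) (hm : |m| ≤ R) :
    |cA a₁ a₂ a₃ e₁ e₂ e₃ m| ≤ 5832 * R ^ 15 := by
  unfold cA
  have h1 := abs_ep c1 c2 c3 c1
  have h2 := abs_ep c1 c2 c3 c2
  have h3 := abs_ep c1 c2 c3 c3
  have h4 := abs_tau hR b1 b2 b3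
  rw [abs_mul, abs_pow, abs_mul]
  have h5 : |ep e₁ e₂ e₃ e₁ * ep e₁ e₂ e₃ e₂ + ep e₁ e₂ e₃ e₁ * ep e₁ e₂ e₃ e₃ +
    ep e₁ e₂ e₃ e₂ * ep e₁ e₂ e₃ e₃| ≤ 972 * R ^ 2 := by
    refine (abs_add_three _ _ _).trans ?_
    rw [abs_mul, abs_mul, abs_mul]
    calc |ep e₁ e₂ e₃ e₁| * |ep e₁ e₂ e₃ e₂| + |ep e₁ e₂ e₃ e₁| * |ep e₁ e₂ e₃ e₃| +
          |ep e₁ e₂ e₃ e₂| * |ep e₁ e₂ e₃ e₃| ≤ (18 * R) * (18 * R) + (18 * R) * (18 * R) +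
            (18 * R) * (18 * R) := by gcongr
      _ = _ := by ring
  calc (|a₁ * a₂ * a₃| * |m|) ^ 2 * |ep e₁ e₂ e₃ e₁ * ep e₁ e₂ e₃ e₂ +
          ep e₁ e₂ e₃ e₁ * ep e₁ e₂ e₃ e₃ + ep e₁ e₂ e₃ e₂ * ep e₁ e₂ e₃ e₃|
        ≤ (R ^ 3 * R) ^ 2 * (972 * R ^ 2) := by gcongr
    _ = 972 * R ^ 10 := by ring
    _ ≤ 5832 * R ^ 15 := by
        have : R ^ 10 ≤ R ^ 15 := pow_le_pow_right₀ hR (by norm_num)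
        have h0 : 0 < R ^ 10 := by positivity
        linarith

theorem abs_cB {R : ℤ} (hR : 1 ≤ R) (b1 : |a₁| ≤ R) (b2 : |a₂| ≤ R) (b3 : |a₃| ≤ R)
    (c1 : |e₁| ≤ R) (c2 : |e₂| ≤ R) (c3 : |e₃| ≤ R) (hm : |m| ≤ R) :
    |cB a₁ a₂ a₃ e₁ e₂ e₃ m| ≤ 5832 * R ^ 15 := by
  unfold cB
  have h1 := abs_ep c1 c2 c3 c1
  have h2 := abs_ep c1 c2 c3 c2
  have h3 := abs_ep c1 c2 c3 c3
  have h4 := abs_tau hR b1 b2 b3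
  rw [abs_neg, abs_mul, abs_pow, abs_mul, abs_mul (ep e₁ e₂ e₃ e₁ * ep e₁ e₂ e₃ e₂),
    abs_mul (ep e₁ e₂ e₃ e₁)]
  calc (|a₁ * a₂ * a₃| * |m|) ^ 3 * (|ep e₁ e₂ e₃ e₁| * |ep e₁ e₂ e₃ e₂| * |ep e₁ e₂ e₃ e₃|)
        ≤ (R ^ 3 * R) ^ 3 * ((18 * R) * (18 * R) * (18 * R)) := by gcongr
    _ = _ := by ring

theorem px_bounds {R : ℤ} (hR : 1 ≤ R) (ha1 : a₁ ≠ 0) (ha2 : a₂ ≠ 0) (ha3 : a₃ ≠ 0)
    (b1 : |a₁| ≤ R) (b2 : |a₂| ≤ R) (b3 : |a₃| ≤ R)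
    (c1 : |e₁| ≤ R) (c2 : |e₂| ≤ R) (c3 : |e₃| ≤ R) (hm : |m| ≤ R) (hξ : 65536 * R ^ 18 ≤ |ξ|) :
    |ξ| ≤ |px a₁ a₂ a₃ e₁ e₂ e₃ ξ m| ∧ |px a₁ a₂ a₃ e₁ e₂ e₃ ξ m| ≤ |ξ| ^ 2 := by
  have hR0 : 0 < R := by linarith
  have h4 := abs_tau hR b1 b2 b3
  have h1 : 1 ≤ |a₁ * a₂ * a₃| := Int.one_le_abs (by positivity)
  have r2 : R ^ 2 ≤ R ^ 18 := pow_le_pow_right₀ hR (by norm_num)
  have r3 : R ^ 3 ≤ R ^ 18 := pow_le_pow_right₀ hR (by norm_num)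
  have r0 : 0 < R ^ 2 := by positivity
  have r0' : 0 < R ^ 3 := by positivity
  have hσ : |3 * (e₁ + e₂ + e₃) * m| ≤ 9 * R ^ 2 := by
    rw [abs_mul]
    have : |3 * (e₁ + e₂ + e₃)| ≤ 9 * R := by
      rw [abs_le] at *
      constructor <;> linarith
    calc |3 * (e₁ + e₂ + e₃)| * |m| ≤ (9 * R) * R := by gcongr
      _ = _ := by ring
  have hn : |9 * ξ| = 9 * |ξ| := by rw [abs_mul]; norm_num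
  have hlo : |ξ| ≤ |9 * ξ - 3 * (e₁ + e₂ + e₃) * m| := by
    have := abs_sub_abs_le_abs_sub (9 * ξ) (3 * (e₁ + e₂ + e₃) * m)
    rw [hn] at this
    linarith
  have hhi : |9 * ξ - 3 * (e₁ + e₂ + e₃) * m| ≤ 18 * |ξ| := by
    have := abs_sub (9 * ξ) (3 * (e₁ + e₂ + e₃) * m)
    rw [hn] at this
    linarith
  unfold px
  rw [abs_mul]
  constructor
  · calc |ξ| = 1 * |ξ| := by ring
      _ ≤ |a₁ * a₂ * a₃| * |9 * ξ - 3 * (e₁ + e₂ + e₃) * m| := by gcongr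
  · calc |a₁ * a₂ * a₃| * |9 * ξ - 3 * (e₁ + e₂ + e₃) * m| ≤ R ^ 3 * (18 * |ξ|) := by gcongr
      _ = (18 * R ^ 3) * |ξ| := by ring
      _ ≤ |ξ| * |ξ| := by
          gcongr
          linarith
      _ = _ := by ring

/-- the count in a class -/
theorem class_count : ∃ C κ : ℕ, 1 ≤ C ∧ ∀ (R : ℕ) (a₁ a₂ a₃ e₁ e₂ e₃ : ℤ), 1 ≤ R → a₁ ≠ 0 →
    a₂ ≠ 0 → a₃ ≠ 0 → |a₁| ≤ R → |a₂| ≤ R → |a₃| ≤ R → |e₁| ≤ R → |e₂| ≤ R → |e₃| ≤ R →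
    e₁ ≠ e₂ → e₁ ≠ e₃ → e₂ ≠ e₃ → ∀ S : Finset (ℤ × ℤ), (∀ s ∈ S, IsCoprime s.1 s.2 ∧ s.2 ≠ 0 ∧
      |s.2| ≤ R ∧ (C * R) ^ κ < s.1.natAbs ∧ ∃ x₁ x₂ x₃ : ℤ, Sol a₁ a₂ a₃ e₁ e₂ e₃ s.1 s.2 x₁ x₂ x₃ ∧
        |a₂ * (e₃ - e₁)| * x₂ ≤ |a₃ * (e₁ - e₂)| * x₃) → S.card ≤ 172 := by
  obtain ⟨C₀, hrep⟩ := repulsion
  obtain ⟨M, hM⟩ : ∃ M, M = 10 ^ 12 * 8 ^ 43 := ⟨_, rfl⟩
  have hM1 : 3 * M ≤ 2 ^ 171 := by rw [hM]; norm_num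
  have hM0 : 1 ≤ M := by rw [hM]; norm_num
  rw [← hM] at hrep
  refine ⟨65536 * (C₀ + 1), 15 * M + 20, by omega, ?_⟩
  intro R a₁ a₂ a₃ e₁ e₂ e₃ hR ha1 ha2 ha3 b1 b2 b3 c1 c2 c3 h12 h13 h23 S hS
  obtain ⟨C, hC⟩ : ∃ C, C = 65536 * (C₀ + 1) := ⟨_, rfl⟩
  rw [← hC] at hS
  have hRz : (1 : ℤ) ≤ R := by exact_mod_cast hR
  have hC1 : 1 ≤ C := by omega
  have hCR : 1 ≤ C * R := Nat.mul_pos hC1 hR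
  -- consequences of being large
  have big1 : ∀ s ∈ S, 65536 * (R : ℤ) ^ 18 ≤ |s.1| := by
    intro s hs
    obtain ⟨-, -, -, h, -⟩ := hS s hs
    have h1 : 65536 * R ^ 18 ≤ (C * R) ^ (15 * M + 20) := by
      calc 65536 * R ^ 18 ≤ C * R ^ 18 := Nat.mul_le_mul_right _ (by omega)
        _ ≤ C ^ 18 * R ^ 18 := Nat.mul_le_mul_right _ (Nat.le_self_pow (by norm_num) C)
        _ = (C * R) ^ 18 := by rw [mul_pow]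
        _ ≤ _ := Nat.pow_le_pow_right hCR (by omega)
    have h2 : 65536 * R ^ 18 ≤ s.1.natAbs := by omega
    have h3 : ((65536 * R ^ 18 : ℕ) : ℤ) ≤ (s.1.natAbs : ℤ) := by exact_mod_cast h2
    rw [Int.natCast_natAbs] at h3
    push_cast at h3
    exact h3
  have big2 : ∀ s ∈ S, C₀ * (5832 * R ^ 15) ≤ s.1.natAbs ∧
      (C₀ * (5832 * R ^ 15)) ^ M < s.1.natAbs := by
    intro s hs
    obtain ⟨-, -, -, h, -⟩ := hS s hs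
    have h1 : C₀ * (5832 * R ^ 15) ≤ (C * R) ^ 15 := by
      calc C₀ * (5832 * R ^ 15) = (C₀ * 5832) * R ^ 15 := by ring
        _ ≤ C * R ^ 15 := Nat.mul_le_mul_right _ (by omega)
        _ ≤ C ^ 15 * R ^ 15 := Nat.mul_le_mul_right _ (Nat.le_self_pow (by norm_num) C)
        _ = (C * R) ^ 15 := by rw [mul_pow]
    constructor
    · have : (C * R) ^ 15 ≤ (C * R) ^ (15 * M + 20) := Nat.pow_le_pow_right hCR (by omega)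
      omega
    · refine lt_of_le_of_lt ?_ h
      calc (C₀ * (5832 * R ^ 15)) ^ M ≤ ((C * R) ^ 15) ^ M := Nat.pow_le_pow_left h1 M
        _ = (C * R) ^ (15 * M) := by rw [← pow_mul]
        _ ≤ _ := Nat.pow_le_pow_right hCR (by omega)
  have hgap : ∀ s ∈ S, ∀ t ∈ S, s ≠ t → |s.1| ≤ |t.1| → |s.1| ^ 2 ≤ |t.1| := by
    intro s hs t ht hst hle
    obtain ⟨s1, s2, s3, s4, x₁, x₂, x₃, s5, s6⟩ := hS s hs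
    obtain ⟨t1, t2, t3, t4, y₁, y₂, y₃, t5, t6⟩ := hS t ht
    exact gap hRz ha1 ha2 ha3 b1 b2 b3 c1 c2 c3 h12 h13 h23 s1 t1 hst s3 t3 s5 t5 s6 t6 hle
      (big1 s hs)
  have hgt : ∀ s ∈ S, 2 ≤ s.1.natAbs := by
    intro s hs
    have h1 := big1 s hs
    have h2 : (1 : ℤ) ≤ (R : ℤ) ^ 18 := one_le_pow₀ hRz
    rw [Int.abs_eq_natAbs] at h1
    omega
  have hinj : Set.InjOn (fun s : ℤ × ℤ => s.1.natAbs) S := by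
    intro s hs t ht hst
    by_contra hne
    have hst : s.1.natAbs = t.1.natAbs := hst
    have h3 : |s.1| = |t.1| := by rw [Int.abs_eq_natAbs, Int.abs_eq_natAbs, hst]
    have h1 := hgap s hs t ht hne h3.le
    have h2 := hgt s hs
    rw [← h3] at h1
    have h4 : 2 ≤ |s.1| := by
      rw [Int.abs_eq_natAbs]
      exact_mod_cast h2
    nlinarith
  rw [← Finset.card_image_of_injOn hinj]
  rcases S.eq_empty_or_nonempty with h0 | h0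
  · rw [h0]; simp
  obtain ⟨s₀, hs₀, hmin⟩ := S.exists_min_image (fun s : ℤ × ℤ => s.1.natAbs) h0
  refine card_gap 171 s₀.1.natAbs _ (hgt s₀ hs₀) ?_ ?_
  · intro t ht
    obtain ⟨s, hs, rfl⟩ := Finset.mem_image.1 ht
    refine ⟨hmin s hs, ?_⟩
    obtain ⟨-, s2, s3, -, x₁, x₂, x₃, s5, -⟩ := hS s₀ hs₀
    obtain ⟨-, t2, t3, -, y₁, y₂, y₃, t5, -⟩ := hS s hs
    obtain ⟨p1, p2⟩ := px_bounds hRz ha1 ha2 ha3 b1 b2 b3 c1 c2 c3 s3 (big1 s₀ hs₀)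
    obtain ⟨q1, q2⟩ := px_bounds hRz ha1 ha2 ha3 b1 b2 b3 c1 c2 c3 t3 (big1 s hs)
    obtain ⟨u1, u2⟩ := big2 s₀ hs₀
    have hHm : max (cA a₁ a₂ a₃ e₁ e₂ e₃ s₀.2).natAbs (cB a₁ a₂ a₃ e₁ e₂ e₃ s₀.2).natAbs ≤
        5832 * R ^ 15 := by
      refine max_le (natAbs_le_of ?_) (natAbs_le_of ?_)
      · push_cast
        exact abs_cA hRz b1 b2 b3 c1 c2 c3 s3
      · push_cast
        exact abs_cB hRz b1 b2 b3 c1 c2 c3 s3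
    have hHk : max (cA a₁ a₂ a₃ e₁ e₂ e₃ s.2).natAbs (cB a₁ a₂ a₃ e₁ e₂ e₃ s.2).natAbs ≤
        5832 * R ^ 15 := by
      refine max_le (natAbs_le_of ?_) (natAbs_le_of ?_)
      · push_cast
        exact abs_cA hRz b1 b2 b3 c1 c2 c3 t3
      · push_cast
        exact abs_cB hRz b1 b2 b3 c1 c2 c3 t3
    have p1' : s₀.1.natAbs ≤ (px a₁ a₂ a₃ e₁ e₂ e₃ s₀.1 s₀.2).natAbs := natAbs_le_natAbs_of p1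
    have p2' : (px a₁ a₂ a₃ e₁ e₂ e₃ s₀.1 s₀.2).natAbs ≤ s₀.1.natAbs ^ 2 := by
      apply natAbs_le_of
      push_cast
      exact p2
    have q1' : s.1.natAbs ≤ (px a₁ a₂ a₃ e₁ e₂ e₃ s.1 s.2).natAbs := natAbs_le_natAbs_of q1
    have hr := hrep a₁ a₂ a₃ e₁ e₂ e₃ s₀.1 s.1 s₀.2 s.2 x₁ x₂ x₃ y₁ y₂ y₃ ha1 ha2 ha3 h12 h13 h23
      s2 t2 s5 t5 (by
        refine lt_of_le_of_lt ?_ (lt_of_lt_of_le u2 p1')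
        exact Nat.pow_le_pow_left (Nat.mul_le_mul_left _ hHm) M)
    have h1 : 1 ≤ s₀.1.natAbs := by have := hgt s₀ hs₀; omega
    calc s.1.natAbs ≤ (px a₁ a₂ a₃ e₁ e₂ e₃ s.1 s.2).natAbs := q1'
      _ ≤ (C₀ * (px a₁ a₂ a₃ e₁ e₂ e₃ s₀.1 s₀.2).natAbs *
          max (cA a₁ a₂ a₃ e₁ e₂ e₃ s.2).natAbs (cB a₁ a₂ a₃ e₁ e₂ e₃ s.2).natAbs) ^ M := hr
      _ ≤ (C₀ * (s₀.1.natAbs ^ 2) * (5832 * R ^ 15)) ^ M :=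
          Nat.pow_le_pow_left (Nat.mul_le_mul (Nat.mul_le_mul_left _ p2') hHk) M
      _ = ((C₀ * (5832 * R ^ 15)) * (s₀.1.natAbs ^ 2)) ^ M := by ring
      _ ≤ (s₀.1.natAbs * (s₀.1.natAbs ^ 2)) ^ M :=
          Nat.pow_le_pow_left (Nat.mul_le_mul_right _ u1) M
      _ = s₀.1.natAbs ^ (3 * M) := by rw [← pow_succ', ← pow_mul]
      _ ≤ s₀.1.natAbs ^ 2 ^ 171 := Nat.pow_le_pow_right h1 hM1
  · intro a ha b hb hab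
    obtain ⟨s, hs, rfl⟩ := Finset.mem_image.1 ha
    obtain ⟨t, ht, rfl⟩ := Finset.mem_image.1 hb
    have hne : s ≠ t := by rintro rfl; exact lt_irrefl _ hab
    have h1 := hgap s hs t ht hne (by
      rw [Int.abs_eq_natAbs, Int.abs_eq_natAbs]
      exact_mod_cast hab.le)
    have h2 : ((s.1.natAbs ^ 2 : ℕ) : ℤ) ≤ (t.1.natAbs : ℤ) := by
      push_cast
      exact h1
    exact_mod_cast h2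

/-- the count -/
theorem large_count : ∃ C κ : ℕ, 1 ≤ C ∧ ∀ (R : ℕ) (a₁ a₂ a₃ e₁ e₂ e₃ : ℤ), 1 ≤ R → a₁ ≠ 0 →
    a₂ ≠ 0 → a₃ ≠ 0 → |a₁| ≤ R → |a₂| ≤ R → |a₃| ≤ R → |e₁| ≤ R → |e₂| ≤ R → |e₃| ≤ R →
    e₁ ≠ e₂ → e₁ ≠ e₃ → e₂ ≠ e₃ → ∀ S : Finset (ℤ × ℤ), (∀ s ∈ S, IsCoprime s.1 s.2 ∧ s.2 ≠ 0 ∧
      |s.2| ≤ R ∧ (C * R) ^ κ < s.1.natAbs ∧
      ∃ x₁ x₂ x₃ : ℤ, Sol a₁ a₂ a₃ e₁ e₂ e₃ s.1 s.2 x₁ x₂ x₃) → S.card ≤ 344 := by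
  classical
  obtain ⟨C, κ, hC, h⟩ := class_count
  refine ⟨C, κ, hC, ?_⟩
  intro R a₁ a₂ a₃ e₁ e₂ e₃ hR ha1 ha2 ha3 b1 b2 b3 c1 c2 c3 h12 h13 h23 S hS
  have h1 := h R a₁ a₂ a₃ e₁ e₂ e₃ hR ha1 ha2 ha3 b1 b2 b3 c1 c2 c3 h12 h13 h23
    (S.filter fun s => ∃ x₁ x₂ x₃ : ℤ, Sol a₁ a₂ a₃ e₁ e₂ e₃ s.1 s.2 x₁ x₂ x₃ ∧
        |a₂ * (e₃ - e₁)| * x₂ ≤ |a₃ * (e₁ - e₂)| * x₃) (by
    intro s hs
    rw [Finset.mem_filter] at hs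
    obtain ⟨s1, s2, s3, s4, -⟩ := hS s hs.1
    exact ⟨s1, s2, s3, s4, hs.2⟩)
  have h2 := h R a₁ a₃ a₂ e₁ e₃ e₂ hR ha1 ha3 ha2 b1 b3 b2 c1 c3 c2 h13 h12 h23.symm
    (S.filter fun s => ¬ ∃ x₁ x₂ x₃ : ℤ, Sol a₁ a₂ a₃ e₁ e₂ e₃ s.1 s.2 x₁ x₂ x₃ ∧
        |a₂ * (e₃ - e₁)| * x₂ ≤ |a₃ * (e₁ - e₂)| * x₃) (by
    intro s hs
    rw [Finset.mem_filter] at hs
    obtain ⟨s1, s2, s3, s4, x₁, x₂, x₃, s5⟩ := hS s hs.1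
    refine ⟨s1, s2, s3, s4, x₁, x₃, x₂, s5.swap, ?_⟩
    have h3 : ¬ |a₂ * (e₃ - e₁)| * x₂ ≤ |a₃ * (e₁ - e₂)| * x₃ := fun h4 =>
      hs.2 ⟨x₁, x₂, x₃, s5, h4⟩
    push Not at h3
    have e1 : |a₃ * (e₂ - e₁)| = |a₃ * (e₁ - e₂)| := by
      rw [← abs_neg]; congr 1; ring
    have e2 : |a₂ * (e₁ - e₃)| = |a₂ * (e₃ - e₁)| := by
      rw [← abs_neg]; congr 1; ring
    rw [e1, e2]
    exact h3.le)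
  have h3 := Finset.card_filter_add_card_filter_not (s := S)
    (fun s => ∃ x₁ x₂ x₃ : ℤ, Sol a₁ a₂ a₃ e₁ e₂ e₃ s.1 s.2 x₁ x₂ x₃ ∧
        |a₂ * (e₃ - e₁)| * x₂ ≤ |a₃ * (e₁ - e₂)| * x₃)
  omega

end Pool.Agent.H49SH
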