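import Pool.Agent.H49SH.Des
import Pool.Agent.H49SH.Large
import Pool.Agent.H49TW.Sums

/-!
# The counts of the three families
-/

set_option autoImplicit false

open Polynomial

namespace Pool.Agent.H49SH

open Finset

/-- the integers that divide `k` -/
def zd (k : ℕ) : Finset ℤ :=
  (k.divisors.image fun n : ℕ => (n : ℤ)) ∪ (k.divisors.image fun n : ℕ => -(n : ℤ))

theorem mem_zd {k : ℕ} {z : ℤ} (hk : k ≠ 0) (h : z.natAbs ∣ k) : z ∈ zd k := by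
  unfold zd
  rw [mem_union, mem_image, mem_image]
  rcases Int.natAbs_eq z with h1 | h1
  · exact Or.inl ⟨z.natAbs, Nat.mem_divisors.2 ⟨h, hk⟩, h1.symm⟩
  · exact Or.inr ⟨z.natAbs, Nat.mem_divisors.2 ⟨h, hk⟩, h1.symm⟩

theorem card_zd (k : ℕ) : (zd k).card ≤ 2 * k.divisors.card := by
  unfold zd
  refine (card_union_le _ _).trans ?_
  have h1 : (k.divisors.image fun n : ℕ => (n : ℤ)).card ≤ k.divisors.card := card_image_le
  have h2 : (k.divisors.image fun n : ℕ => -(n : ℤ)).card ≤ k.divisors.card := card_image_le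
  omega

theorem card_le_real {α β : Type} [DecidableEq β] (s : Finset α) (t : Finset β) (φ : α → β)
    (h : ∀ a ∈ s, φ a ∈ t) (n : ℝ) (hn : ∀ b ∈ t, ((s.filter fun a => φ a = b).card : ℝ) ≤ n) :
    (s.card : ℝ) ≤ t.card * n := by
  have h1 := Finset.card_eq_sum_card_fiberwise (f := φ) (s := s) (t := t) (fun a ha => h a ha)
  rw [h1]
  push_cast
  refine (sum_le_sum hn).trans ?_
  rw [sum_const, nsmul_eq_mul]

/-- three of the four numbers have a small product -/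
theorem window (t : Fin 4 → ℕ) (Z : ℕ) (h : ∏ i, t i ≤ Z) :
    ∃ l : Fin 4, (t (l.succAbove 0) * t (l.succAbove 1) * t (l.succAbove 2)) ^ 4 ≤ Z ^ 3 := by
  obtain ⟨l, hl⟩ := Finite.exists_max t
  refine ⟨l, ?_⟩
  rw [Fin.prod_univ_succAbove t l, Fin.prod_univ_three] at h
  obtain ⟨P, hP⟩ : ∃ P, P = t (l.succAbove 0) * t (l.succAbove 1) * t (l.succAbove 2) := ⟨_, rfl⟩
  rw [← hP] at h ⊢
  have h1 : P ≤ t l ^ 3 := by
    rw [hP]
    calc t (l.succAbove 0) * t (l.succAbove 1) * t (l.succAbove 2) ≤ t l * t l * t l :=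
          Nat.mul_le_mul (Nat.mul_le_mul (hl _) (hl _)) (hl _)
      _ = _ := by ring
  calc P ^ 4 = P * P ^ 3 := by ring
    _ ≤ t l ^ 3 * P ^ 3 := Nat.mul_le_mul_right _ h1
    _ = (t l * P) ^ 3 := by ring
    _ ≤ Z ^ 3 := Nat.pow_le_pow_left h 3

/-- one of two pairs has a small product -/
theorem window2 (t : Fin 4 → ℕ) (Z : ℕ) (h : ∏ i, t i ≤ Z) :
    (t 0 * t 1) ^ 2 ≤ Z ∨ (t 2 * t 3) ^ 2 ≤ Z := by
  rw [Fin.prod_univ_four] at h
  rcases le_total (t 0 * t 1) (t 2 * t 3) with h1 | h1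
  · left
    calc (t 0 * t 1) ^ 2 = (t 0 * t 1) * (t 0 * t 1) := sq _
      _ ≤ (t 0 * t 1) * (t 2 * t 3) := Nat.mul_le_mul_left _ h1
      _ = t 0 * t 1 * t 2 * t 3 := by ring
      _ ≤ Z := h
  · right
    calc (t 2 * t 3) ^ 2 = (t 2 * t 3) * (t 2 * t 3) := sq _
      _ ≤ (t 0 * t 1) * (t 2 * t 3) := Nat.mul_le_mul_right _ h1
      _ = t 0 * t 1 * t 2 * t 3 := by ring
      _ ≤ Z := h

/-- a family of data -/
structure Fam (f : ℤ[X]) (e : Fin 4 → ℤ) (Δ N : ℕ) (S : Finset ℤ) (g : ℤ → ℕ) (ξ m : ℤ → ℤ)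
    (a : ℤ → Fin 4 → ℤ) (x : ℤ → Fin 4 → ℕ) : Prop where
  sqf : ∀ D ∈ S, Squarefree D
  leN : ∀ D ∈ S, D.natAbs ≤ N
  dat : ∀ D ∈ S, Dat f e Δ D (g D) (ξ D) (m D) (a D) (x D)

section fam

variable {f : ℤ[X]} {e : Fin 4 → ℤ} {Δ N : ℕ} {S : Finset ℤ} {g : ℤ → ℕ} {ξ m : ℤ → ℤ}
  {a : ℤ → Fin 4 → ℤ} {x : ℤ → Fin 4 → ℕ}

theorem Fam.sub (h : Fam f e Δ N S g ξ m a x) {T : Finset ℤ} (hT : T ⊆ S) :
    Fam f e Δ N T g ξ m a x :=
  ⟨fun D hD => h.sqf D (hT hD), fun D hD => h.leN D (hT hD), fun D hD => h.dat D (hT hD)⟩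

theorem Fam.gm (h : Fam f e Δ N S g ξ m a x) {D : ℤ} (hD : D ∈ S) :
    g D * (m D).natAbs ≤ N := by
  have h1 := (h.dat D hD).hD
  have h2 := congrArg Int.natAbs h1
  rw [Int.natAbs_mul, Int.natAbs_natCast] at h2
  rw [← h2]
  exact h.leN D hD

theorem Fam.mne (h : Fam f e Δ N S g ξ m a x) {D : ℤ} (hD : D ∈ S) : m D ≠ 0 := by
  intro h0
  have h1 := (h.dat D hD).hD
  rw [h0, mul_zero] at h1
  exact (h.sqf D hD).ne_zero h1

theorem Fam.mpos (h : Fam f e Δ N S g ξ m a x) {D : ℤ} (hD : D ∈ S) : 1 ≤ (m D).natAbs :=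
  Nat.one_le_iff_ne_zero.2 (Int.natAbs_ne_zero.2 (h.mne hD))

theorem Fam.mle (h : Fam f e Δ N S g ξ m a x) {D : ℤ} (hD : D ∈ S) : (m D).natAbs ≤ N :=
  (Nat.le_mul_of_pos_left _ (h.dat D hD).g0).trans (h.gm hD)

theorem Fam.gle (h : Fam f e Δ N S g ξ m a x) {D : ℤ} (hD : D ∈ S) : g D ≤ N :=
  (Nat.le_mul_of_pos_right _ (h.mpos hD)).trans (h.gm hD)

theorem Fam.msq (h : Fam f e Δ N S g ξ m a x) {D : ℤ} (hD : D ∈ S) : Squarefree (m D) :=
  (h.sqf D hD).squarefree_of_dvd ⟨g D, (h.dat D hD).hD.trans (mul_comm _ _)⟩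

theorem Fam.ale (h : Fam f e Δ N S g ξ m a x) (hΔ : 1 ≤ Δ) {D : ℤ} (hD : D ∈ S) (i : Fin 4) :
    (a D i).natAbs ≤ Δ * N := by
  refine (Nat.le_of_dvd (Nat.mul_pos hΔ (h.dat D hD).g0) ((h.dat D hD).dvd i)).trans ?_
  exact Nat.mul_le_mul_left _ (h.gle hD)

theorem Fam.prodle (h : Fam f e Δ N S g ξ m a x) {D : ℤ} (hD : D ∈ S) :
    (∏ i, (a D i).natAbs) * (m D).natAbs ≤ Δ * N := by
  calc (∏ i, (a D i).natAbs) * (m D).natAbs ≤ (Δ * g D) * (m D).natAbs :=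
        Nat.mul_le_mul_right _ (h.dat D hD).prod
    _ = Δ * (g D * (m D).natAbs) := by ring
    _ ≤ Δ * N := Nat.mul_le_mul_left _ (h.gm hD)

theorem Fam.inj (h : Fam f e Δ N S g ξ m a x) {D D' : ℤ} (hD : D ∈ S) (hD' : D' ∈ S)
    (h1 : ξ D = ξ D') (h2 : m D = m D') : D = D' := by
  have d := h.dat D hD
  have d' := h.dat D' hD'
  rw [← h1, ← h2] at d'
  exact d.unique d' (h.sqf D hD) (h.sqf D' hD')

theorem Fam.xle (h : Fam f e Δ N S g ξ m a x) {E L : ℕ} (hE : ∀ i, (e i).natAbs ≤ E)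
    {D : ℤ} (hD : D ∈ S) (hL : (ξ D).natAbs ≤ L) (i : Fin 4) : x D i ≤ L + E * N := by
  have d := h.dat D hD
  have h1 : (ξ D - e i * m D).natAbs = (a D i).natAbs * x D i ^ 2 := by
    rw [d.eq i, Int.natAbs_mul, Int.natAbs_pow, Int.natAbs_natCast]
  have h2 : 1 ≤ (a D i).natAbs := Nat.one_le_iff_ne_zero.2 (Int.natAbs_ne_zero.2 (d.ne i))
  have h3 : x D i ≤ (a D i).natAbs * x D i ^ 2 :=
    (Nat.le_self_pow two_ne_zero _).trans (Nat.le_mul_of_pos_left _ h2)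
  have h4 : (ξ D - e i * m D).natAbs ≤ (ξ D).natAbs + (e i * m D).natAbs :=
    Int.natAbs_sub_le _ _
  have h5 : (e i * m D).natAbs ≤ E * N := by
    rw [Int.natAbs_mul]
    exact Nat.mul_le_mul (hE i) (h.mle hD)
  omega

end fam

/-- the targets of the first family -/
noncomputable def TA (Q : ℕ) : Finset (Fin 4 × ℤ × ℤ × ℤ) :=
  (univ : Finset (Fin 4)) ×ˢ (Icc 1 Q).biUnion fun k => zd k ×ˢ zd k ×ˢ zd k

theorem card_TA {Q T : ℕ} (hT : ∀ k : ℕ, 1 ≤ k → k ≤ Q → k.divisors.card ≤ T) :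
    (TA Q).card ≤ 4 * (Q * (2 * T) ^ 3) := by
  unfold TA
  rw [card_product, card_univ, Fintype.card_fin]
  refine Nat.mul_le_mul_left _ ?_
  refine card_biUnion_le.trans ?_
  have h1 : ∀ k ∈ Icc 1 Q, (zd k ×ˢ zd k ×ˢ zd k).card ≤ (2 * T) ^ 3 := by
    intro k hk
    rw [mem_Icc] at hk
    rw [card_product, card_product]
    have h2 : (zd k).card ≤ 2 * T := (card_zd k).trans (Nat.mul_le_mul_left _ (hT k hk.1 hk.2))
    calc (zd k).card * ((zd k).card * (zd k).card) ≤ (2 * T) * ((2 * T) * (2 * T)) :=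
          Nat.mul_le_mul h2 (Nat.mul_le_mul h2 h2)
      _ = _ := by ring
  refine (sum_le_sum h1).trans ?_
  rw [sum_const, smul_eq_mul, Nat.card_Icc, Nat.add_sub_cancel]

/-- the first family -/
theorem famA {f : ℤ[X]} {e : Fin 4 → ℤ} {Δ N : ℕ} {S : Finset ℤ} {g : ℤ → ℕ} {ξ m : ℤ → ℤ}
    {a : ℤ → Fin 4 → ℤ} {x : ℤ → Fin 4 → ℕ} (h : Fam f e Δ N S g ξ m a x) (hΔ : 1 ≤ Δ) {R Q : ℕ}
    (hR : 1 ≤ R) (hRa : Δ * N ≤ R) (hRe : ∀ i, (e i).natAbs ≤ R) (he : Function.Injective e)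
    (hQ : ∀ n : ℕ, n ^ 4 ≤ (Δ * N) ^ 3 → n ≤ Q) {L : ℕ}
    (hlc : ∀ (a₁ a₂ a₃ e₁ e₂ e₃ : ℤ), a₁ ≠ 0 →
    a₂ ≠ 0 → a₃ ≠ 0 → |a₁| ≤ R → |a₂| ≤ R → |a₃| ≤ R → |e₁| ≤ R → |e₂| ≤ R → |e₃| ≤ R →
    e₁ ≠ e₂ → e₁ ≠ e₃ → e₂ ≠ e₃ → ∀ S : Finset (ℤ × ℤ), (∀ s ∈ S, IsCoprime s.1 s.2 ∧ s.2 ≠ 0 ∧
      |s.2| ≤ R ∧ L < s.1.natAbs ∧
      ∃ x₁ x₂ x₃ : ℤ, Sol a₁ a₂ a₃ e₁ e₂ e₃ s.1 s.2 x₁ x₂ x₃) → S.card ≤ 344)
    (hS : ∀ D ∈ S, L < (ξ D).natAbs) : (S.card : ℝ) ≤ (TA Q).card * 344 := by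
  classical
  have hw : ∀ D ∈ S, ∃ l : Fin 4, ((a D (l.succAbove 0)).natAbs * (a D (l.succAbove 1)).natAbs *
      (a D (l.succAbove 2)).natAbs) ^ 4 ≤ (Δ * N) ^ 3 := by
    intro D hD
    apply window (fun i => (a D i).natAbs)
    exact (Nat.le_mul_of_pos_right _ (h.mpos hD)).trans (h.prodle hD)
  choose! l hl using hw
  refine card_le_real S (TA Q) (fun D => (l D, a D ((l D).succAbove 0), a D ((l D).succAbove 1),
    a D ((l D).succAbove 2))) ?_ 344 ?_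
  · intro D hD
    have hne : ∀ i, (a D i).natAbs ≠ 0 := fun i => Int.natAbs_ne_zero.2 ((h.dat D hD).ne i)
    unfold TA
    rw [mem_product, mem_biUnion]
    refine ⟨mem_univ _, (a D ((l D).succAbove 0)).natAbs * (a D ((l D).succAbove 1)).natAbs *
      (a D ((l D).succAbove 2)).natAbs, ?_, ?_⟩
    · rw [mem_Icc]
      exact ⟨Nat.one_le_iff_ne_zero.2 (mul_ne_zero (mul_ne_zero (hne _) (hne _)) (hne _)),
        hQ _ (hl D hD)⟩
    · have hk := mul_ne_zero (mul_ne_zero (hne ((l D).succAbove 0)) (hne ((l D).succAbove 1)))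
        (hne ((l D).succAbove 2))
      rw [mem_product, mem_product]
      refine ⟨mem_zd hk ?_, mem_zd hk ?_, mem_zd hk ?_⟩
      · exact (dvd_mul_right _ _).mul_right _
      · exact (dvd_mul_left _ _).mul_right _
      · exact dvd_mul_left _ _
  · rintro ⟨l₀, α, β, γ⟩ -
    rcases (S.filter fun D => (l D, a D ((l D).succAbove 0), a D ((l D).succAbove 1),
      a D ((l D).succAbove 2)) = (l₀, α, β, γ)).eq_empty_or_nonempty with h0 | ⟨D₀, hD₀⟩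
    · rw [h0]; simp
    have hfac : ∀ D ∈ S.filter (fun D => (l D, a D ((l D).succAbove 0), a D ((l D).succAbove 1),
      a D ((l D).succAbove 2)) = (l₀, α, β, γ)), D ∈ S ∧ a D (l₀.succAbove 0) = α ∧
      a D (l₀.succAbove 1) = β ∧ a D (l₀.succAbove 2) = γ := by
      intro D hD
      rw [mem_filter] at hD
      obtain ⟨h1, h2⟩ := hD
      simp only [Prod.mk.injEq] at h2
      obtain ⟨h3, h4, h5, h6⟩ := h2
      rw [h3] at h4 h5 h6
      exact ⟨h1, h4, h5, h6⟩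
    obtain ⟨hS0, f1, f2, f3⟩ := hfac D₀ hD₀
    have habs : ∀ i, |a D₀ i| ≤ (R : ℤ) := by
      intro i
      rw [Int.abs_eq_natAbs]
      exact_mod_cast (h.ale hΔ hS0 i).trans hRa
    have habe : ∀ i, |e i| ≤ (R : ℤ) := by
      intro i
      rw [Int.abs_eq_natAbs]
      exact_mod_cast hRe i
    have hinj3 : ∀ i j : Fin 3, i ≠ j → e (l₀.succAbove i) ≠ e (l₀.succAbove j) := by
      intro i j hij h1
      exact hij (Fin.succAbove_right_injective (he h1))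
    have key := hlc α β γ (e (l₀.succAbove 0)) (e (l₀.succAbove 1)) (e (l₀.succAbove 2))
      (by rw [← f1]; exact (h.dat D₀ hS0).ne _) (by rw [← f2]; exact (h.dat D₀ hS0).ne _)
      (by rw [← f3]; exact (h.dat D₀ hS0).ne _) (by rw [← f1]; exact habs _)
      (by rw [← f2]; exact habs _) (by rw [← f3]; exact habs _) (habe _) (habe _) (habe _)
      (hinj3 0 1 (by decide)) (hinj3 0 2 (by decide)) (hinj3 1 2 (by decide))
      ((S.filter fun D => (l D, a D ((l D).succAbove 0), a D ((l D).succAbove 1),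
      a D ((l D).succAbove 2)) = (l₀, α, β, γ)).image fun D => (ξ D, m D)) (by
        intro s hs
        obtain ⟨D, hD, rfl⟩ := mem_image.1 hs
        obtain ⟨q1, q2, q3, q4⟩ := hfac D hD
        have d := h.dat D q1
        refine ⟨d.cop, h.mne q1, ?_, hS D q1, x D (l₀.succAbove 0), x D (l₀.succAbove 1),
          x D (l₀.succAbove 2), ⟨by exact_mod_cast d.pos _, by exact_mod_cast d.pos _,
            by exact_mod_cast d.pos _, ?_, ?_, ?_⟩⟩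
        · rw [Int.abs_eq_natAbs]
          have : N ≤ Δ * N := Nat.le_mul_of_pos_left _ hΔ
          exact_mod_cast (h.mle q1).trans (this.trans hRa)
        · rw [← q2]; exact d.eq _
        · rw [← q3]; exact d.eq _
        · rw [← q4]; exact d.eq _)
    rw [card_image_of_injOn] at key
    · exact_mod_cast key
    · intro D hD D' hD' hDD
      simp only [Prod.mk.injEq] at hDD
      exact h.inj (hfac D hD).1 (hfac D' hD').1 hDD.1 hDD.2

end Pool.Agent.H49SH
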