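import Pool.Agent.H49SH.Cnt

/-!
# The counts of the second and third families
-/

set_option autoImplicit false

open Polynomial

namespace Pool.Agent.H49SH

open Finset Pool.Agent.H49TW

/-- the two pairs of indices -/
def pr : Fin 2 → Fin 4 × Fin 4 := ![(0, 1), (2, 3)]

theorem pr_ne (p : Fin 2) : (pr p).1 ≠ (pr p).2 := by
  fin_cases p <;> decide

/-- the targets of the second family -/
noncomputable def TB (M Z : ℕ) : Finset (Fin 2 × ℤ × ℤ × ℤ) :=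
  (univ : Finset (Fin 2)) ×ˢ (Icc 1 M).biUnion fun μ =>
    ({(μ : ℤ), -(μ : ℤ)} : Finset ℤ) ×ˢ (Icc 1 (Nat.sqrt (Z / μ))).biUnion fun k => zd k ×ˢ zd k

theorem card_TB {M Z T : ℕ} (hT : ∀ k : ℕ, 1 ≤ k → k ≤ Z → k.divisors.card ≤ T) :
    ((TB M Z).card : ℝ) ≤ 32 * T ^ 2 * (√(Z : ℝ) * √(M : ℝ)) := by
  have h0 : (TB M Z).card ≤ 2 * ∑ μ ∈ Icc 1 M, 2 * (Nat.sqrt (Z / μ) * (2 * T) ^ 2) := by
    unfold TB
    rw [card_product, card_univ, Fintype.card_fin]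
    refine Nat.mul_le_mul_left _ (card_biUnion_le.trans (sum_le_sum fun μ hμ => ?_))
    rw [card_product]
    refine Nat.mul_le_mul (card_insert_le _ _) (card_biUnion_le.trans ?_)
    have h1 : ∀ k ∈ Icc 1 (Nat.sqrt (Z / μ)), (zd k ×ˢ zd k).card ≤ (2 * T) ^ 2 := by
      intro k hk
      rw [mem_Icc] at hk
      rw [card_product, sq]
      have hkZ : k ≤ Z := hk.2.trans ((Nat.sqrt_le_self _).trans (Nat.div_le_self _ _))
      have h2 : (zd k).card ≤ 2 * T := (card_zd k).trans (Nat.mul_le_mul_left _ (hT k hk.1 hkZ))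
      exact Nat.mul_le_mul h2 h2
    refine (sum_le_sum h1).trans ?_
    rw [sum_const, smul_eq_mul, Nat.card_Icc, Nat.add_sub_cancel]
  have h1 : ((TB M Z).card : ℝ) ≤ 2 * ∑ μ ∈ Icc 1 M, 2 * ((Nat.sqrt (Z / μ) : ℝ) * (2 * T) ^ 2) := by
    exact_mod_cast h0
  have h2 : ∀ μ ∈ Icc 1 M, 2 * ((Nat.sqrt (Z / μ) : ℝ) * (2 * T) ^ 2) ≤
      8 * T ^ 2 * √(Z : ℝ) * (1 / √(μ : ℝ)) := by
    intro μ hμ
    rw [mem_Icc] at hμ
    have hμ0 : (0 : ℝ) < μ := by exact_mod_cast hμ.1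
    have h3 : (Nat.sqrt (Z / μ) : ℝ) ≤ √(Z : ℝ) * (1 / √(μ : ℝ)) := by
      refine (Real.nat_sqrt_le_real_sqrt).trans ?_
      rw [mul_one_div, ← Real.sqrt_div (Nat.cast_nonneg _)]
      exact Real.sqrt_le_sqrt Nat.cast_div_le
    have hT0 : (0 : ℝ) ≤ (T : ℝ) ^ 2 := by positivity
    calc 2 * ((Nat.sqrt (Z / μ) : ℝ) * (2 * T) ^ 2) = 8 * T ^ 2 * (Nat.sqrt (Z / μ) : ℝ) := by ring
      _ ≤ 8 * T ^ 2 * (√(Z : ℝ) * (1 / √(μ : ℝ))) := by gcongr
      _ = _ := by ring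
  have h3 : ∑ μ ∈ Icc 1 M, 2 * ((Nat.sqrt (Z / μ) : ℝ) * (2 * T) ^ 2) ≤
      8 * T ^ 2 * √(Z : ℝ) * ∑ μ ∈ Icc 1 M, (1 / √(μ : ℝ)) := by
    rw [mul_sum]
    exact sum_le_sum h2
  have h4 := sum_sqrt M
  calc ((TB M Z).card : ℝ) ≤ 2 * (8 * T ^ 2 * √(Z : ℝ) * ∑ μ ∈ Icc 1 M, 1 / √(μ : ℝ)) :=
        h1.trans (mul_le_mul_of_nonneg_left h3 (by norm_num))
    _ ≤ 2 * (8 * T ^ 2 * √(Z : ℝ) * (2 * √(M : ℝ))) := by gcongr
    _ = _ := by ring

/-- the second family -/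
theorem famB {f : ℤ[X]} {e : Fin 4 → ℤ} {Δ N : ℕ} {S : Finset ℤ} {g : ℤ → ℕ} {ξ m : ℤ → ℤ}
    {a : ℤ → Fin 4 → ℤ} {x : ℤ → Fin 4 → ℕ} (h : Fam f e Δ N S g ξ m a x) (hΔ : 1 ≤ Δ)
    {E B M T : ℕ} (hE : ∀ i, (e i).natAbs ≤ E) (he : Function.Injective e)
    (hB : ∀ D ∈ S, ∀ i, x D i ≤ B) (hM : ∀ D ∈ S, (m D).natAbs ≤ M)
    (hT : ∀ k : ℕ, 1 ≤ k → k ≤ Δ * N → k.divisors.card ≤ T) :
    (S.card : ℝ) ≤ (TB M (Δ * N)).card * (T * ((Nat.log 2 B + 1) * ((2 * E : ℕ) ^ 2 + 1)) ^ 2 : ℕ) := by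
  classical
  have hw : ∀ D ∈ S, ∃ p : Fin 2, ((a D (pr p).1).natAbs * (a D (pr p).2).natAbs) ^ 2 *
      (m D).natAbs ≤ Δ * N := by
    intro D hD
    have hm := h.mpos hD
    have h1 : ∏ i, (a D i).natAbs ≤ Δ * N / (m D).natAbs :=
      (Nat.le_div_iff_mul_le hm).2 (h.prodle hD)
    rcases window2 (fun i => (a D i).natAbs) _ h1 with h2 | h2
    · exact ⟨0, (Nat.le_div_iff_mul_le hm).1 h2⟩
    · exact ⟨1, (Nat.le_div_iff_mul_le hm).1 h2⟩
  choose! p hp using hw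
  refine card_le_real S (TB M (Δ * N)) (fun D => (p D, m D, a D (pr (p D)).1, a D (pr (p D)).2))
    ?_ _ ?_
  · intro D hD
    have hne : ∀ i, (a D i).natAbs ≠ 0 := fun i => Int.natAbs_ne_zero.2 ((h.dat D hD).ne i)
    have hk := mul_ne_zero (hne (pr (p D)).1) (hne (pr (p D)).2)
    unfold TB
    rw [mem_product, mem_biUnion]
    refine ⟨mem_univ _, (m D).natAbs, ?_, ?_⟩
    · rw [mem_Icc]
      exact ⟨h.mpos hD, hM D hD⟩
    rw [mem_product, mem_biUnion]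
    refine ⟨?_, (a D (pr (p D)).1).natAbs * (a D (pr (p D)).2).natAbs, ?_, ?_⟩
    · rw [mem_insert, mem_singleton]
      exact Int.natAbs_eq (m D)
    · rw [mem_Icc]
      refine ⟨Nat.one_le_iff_ne_zero.2 hk, ?_⟩
      rw [Nat.le_sqrt']
      exact (Nat.le_div_iff_mul_le (h.mpos hD)).2 (hp D hD)
    · rw [mem_product]
      exact ⟨mem_zd hk (dvd_mul_right _ _), mem_zd hk (dvd_mul_left _ _)⟩
  · rintro ⟨p₀, μ, α, β⟩ -
    rcases (S.filter fun D => (p D, m D, a D (pr (p D)).1, a D (pr (p D)).2) =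
      (p₀, μ, α, β)).eq_empty_or_nonempty with h0 | ⟨D₀, hD₀⟩
    · rw [h0, card_empty, Nat.cast_zero]; positivity
    have hfac : ∀ D ∈ S.filter (fun D => (p D, m D, a D (pr (p D)).1, a D (pr (p D)).2) =
      (p₀, μ, α, β)), D ∈ S ∧ m D = μ ∧ a D (pr p₀).1 = α ∧ a D (pr p₀).2 = β := by
      intro D hD
      rw [mem_filter] at hD
      obtain ⟨h1, h2⟩ := hD
      simp only [Prod.mk.injEq] at h2
      obtain ⟨h3, h4, h5, h6⟩ := h2
      rw [h3] at h5 h6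
      exact ⟨h1, h4, h5, h6⟩
    obtain ⟨hS0, f0, f1, f2⟩ := hfac D₀ hD₀
    have hne : e (pr p₀).2 - e (pr p₀).1 ≠ 0 :=
      sub_ne_zero.2 fun h1 => pr_ne p₀ (he h1).symm
    have key := card_sol (a := α) (b := β) (e := e (pr p₀).2 - e (pr p₀).1) (m := μ) (E := 2 * E)
      (B := B) (by rw [← f1]; exact (h.dat D₀ hS0).ne _) (by rw [← f2]; exact (h.dat D₀ hS0).ne _)
      hne (by
        have := hE (pr p₀).1
        have := hE (pr p₀).2
        omega) (by rw [← f0]; exact h.msq hS0) (by rw [← f0, ← f1]; exact (h.dat D₀ hS0).am _)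
      ((S.filter fun D => (p D, m D, a D (pr (p D)).1, a D (pr (p D)).2) =
        (p₀, μ, α, β)).image fun D => (x D (pr p₀).1, x D (pr p₀).2)) (by
        intro s hs
        obtain ⟨D, hD, rfl⟩ := mem_image.1 hs
        obtain ⟨q1, q2, q3, q4⟩ := hfac D hD
        have d := h.dat D q1
        refine ⟨d.pos _, hB D q1 _, d.pos _, hB D q1 _, ?_⟩
        have e1 := d.eq (pr p₀).1
        have e2 := d.eq (pr p₀).2
        rw [q2, q3] at e1
        rw [q2, q4] at e2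
        linear_combination e2 - e1)
    rw [card_image_of_injOn] at key
    · have hTm : μ.natAbs.divisors.card ≤ T := by
        apply hT
        · rw [← f0]; exact h.mpos hS0
        · rw [← f0]
          exact (h.mle hS0).trans (Nat.le_mul_of_pos_left _ hΔ)
      have := key.trans (Nat.mul_le_mul_right _ hTm)
      exact_mod_cast this
    · intro D hD D' hD' hDD
      simp only [Prod.mk.injEq] at hDD
      obtain ⟨q1, q2, q3, q4⟩ := hfac D hD
      obtain ⟨q1', q2', q3', q4'⟩ := hfac D' hD'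
      refine h.inj q1 q1' ?_ (q2.trans q2'.symm)
      have e1 := (h.dat D q1).eq (pr p₀).1
      have e2 := (h.dat D' q1').eq (pr p₀).1
      rw [q2, q3, hDD.1] at e1
      rw [q2', q3'] at e2
      linarith

/-- the targets of the third family -/
noncomputable def TC (G Δ : ℕ) : Finset (ℕ × ℤ × ℤ × ℤ) :=
  (Icc 1 G).biUnion fun g => ({g} : Finset ℕ) ×ˢ zd (Δ * g) ×ˢ zd (Δ * g) ×ˢ zd (Δ * g)

theorem card_TC {G Δ T Z : ℕ} (hΔ : 1 ≤ Δ) (hG : Δ * G ≤ Z)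
    (hT : ∀ k : ℕ, 1 ≤ k → k ≤ Z → k.divisors.card ≤ T) : (TC G Δ).card ≤ G * (2 * T) ^ 3 := by
  unfold TC
  refine card_biUnion_le.trans ?_
  have h1 : ∀ g ∈ Icc 1 G, (({g} : Finset ℕ) ×ˢ zd (Δ * g) ×ˢ zd (Δ * g) ×ˢ zd (Δ * g)).card ≤
      (2 * T) ^ 3 := by
    intro g hg
    rw [mem_Icc] at hg
    rw [card_product, card_product, card_product, card_singleton, one_mul]
    have h2 : (zd (Δ * g)).card ≤ 2 * T := (card_zd _).trans (Nat.mul_le_mul_left _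
      (hT _ (Nat.mul_pos hΔ hg.1) ((Nat.mul_le_mul_left _ hg.2).trans hG)))
    calc (zd (Δ * g)).card * ((zd (Δ * g)).card * (zd (Δ * g)).card) ≤
          (2 * T) * ((2 * T) * (2 * T)) := Nat.mul_le_mul h2 (Nat.mul_le_mul h2 h2)
      _ = _ := by ring
  refine (sum_le_sum h1).trans ?_
  rw [sum_const, smul_eq_mul, Nat.card_Icc, Nat.add_sub_cancel]

/-- the third family -/
theorem famC {f : ℤ[X]} {e : Fin 4 → ℤ} {Δ N : ℕ} {S : Finset ℤ} {g : ℤ → ℕ} {ξ m : ℤ → ℤ}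
    {a : ℤ → Fin 4 → ℤ} {x : ℤ → Fin 4 → ℕ} (h : Fam f e Δ N S g ξ m a x) (hΔ : 1 ≤ Δ) (hN : 1 ≤ N)
    {E B G : ℕ} (hE : ∀ i, (e i).natAbs ≤ E) (he : Function.Injective e)
    (hB : ∀ D ∈ S, ∀ i, x D i ≤ B) (hG : ∀ D ∈ S, g D ≤ G) :
    (S.card : ℝ) ≤ (TC G Δ).card *
      (37 * (E + 1) * √((Δ * N : ℕ) : ℝ) * (2 * ((Nat.log 2 B + 1 : ℕ) : ℝ) ^ 2)) := by
  classical
  refine card_le_real S (TC G Δ) (fun D => (g D, a D 0, a D 1, a D 2)) ?_ _ ?_
  · intro D hD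
    have d := h.dat D hD
    have hk : Δ * g D ≠ 0 := (Nat.mul_pos hΔ d.g0).ne'
    unfold TC
    rw [mem_biUnion]
    refine ⟨g D, ?_, ?_⟩
    · rw [mem_Icc]
      exact ⟨d.g0, hG D hD⟩
    · rw [mem_product, mem_product, mem_product, mem_singleton]
      exact ⟨rfl, mem_zd hk (d.dvd 0), mem_zd hk (d.dvd 1), mem_zd hk (d.dvd 2)⟩
  · rintro ⟨g₀, α, β, γ⟩ -
    rcases (S.filter fun D => (g D, a D 0, a D 1, a D 2) =
      (g₀, α, β, γ)).eq_empty_or_nonempty with h0 | ⟨D₀, hD₀⟩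
    · rw [h0, card_empty, Nat.cast_zero]; positivity
    have hfac : ∀ D ∈ S.filter (fun D => (g D, a D 0, a D 1, a D 2) = (g₀, α, β, γ)),
        D ∈ S ∧ g D = g₀ ∧ a D 0 = α ∧ a D 1 = β ∧ a D 2 = γ := by
      intro D hD
      rw [mem_filter] at hD
      obtain ⟨h1, h2⟩ := hD
      simp only [Prod.mk.injEq] at h2
      obtain ⟨h3, h4, h5, h6⟩ := h2
      exact ⟨h1, h3, h4, h5, h6⟩
    obtain ⟨hS0, f0, f1, f2, f3⟩ := hfac D₀ hD₀
    have d0 := h.dat D₀ hS0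
    have hg0 : 0 < g₀ := by rw [← f0]; exact d0.g0
    have hgN : g₀ ≤ N := by rw [← f0]; exact h.gle hS0
    have hα : α ≠ 0 := by rw [← f1]; exact d0.ne _
    have hβ : β ≠ 0 := by rw [← f2]; exact d0.ne _
    have hγ : γ ≠ 0 := by rw [← f3]; exact d0.ne _
    have hβle : β.natAbs ≤ Δ * g₀ := by
      rw [← f2, ← f0]
      exact Nat.le_of_dvd (Nat.mul_pos hΔ d0.g0) (d0.dvd 1)
    have hγle : γ.natAbs ≤ Δ * g₀ := by
      rw [← f3, ← f0]
      exact Nat.le_of_dvd (Nat.mul_pos hΔ d0.g0) (d0.dvd 2)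
    have hee : ∀ i j, |e i - e j| ≤ ((2 * E : ℕ) : ℤ) := by
      intro i j
      have h1 := hE i
      have h2 := hE j
      rw [Int.abs_eq_natAbs]
      have : (e i - e j).natAbs ≤ 2 * E := by omega
      exact_mod_cast this
    obtain ⟨r, hr⟩ : ∃ r, r = Nat.sqrt (4 * E * (Δ * g₀)) + 1 := ⟨_, rfl⟩
    obtain ⟨s, hs⟩ : ∃ s, s = Nat.sqrt (2 * E * (N / g₀)) + 1 := ⟨_, rfl⟩
    have hr2 : 4 * E * (Δ * g₀) ≤ r ^ 2 := by
      rw [hr]; exact (Nat.lt_succ_sqrt' _).le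
    have hs2 : 2 * E * (N / g₀) ≤ s ^ 2 := by
      rw [hs]; exact (Nat.lt_succ_sqrt' _).le
    have key := count_B (a₁ := α) (a₂ := β) (a₃ := γ) (e₁ := e 0) (e₂ := e 1) (e₃ := e 2)
      (E := 2 * E) (r := r) (N := N / g₀) (s := s) (B := B) hα hβ hγ
      (fun h1 => absurd (he h1) (by decide)) (fun h1 => absurd (he h1) (by decide))
      (fun h1 => absurd (he h1) (by decide)) (hee _ _) (hee _ _) (by omega) (by
        have h1 : |β * (e 2 - e 0)| ≤ ((Δ * g₀ : ℕ) : ℤ) * ((2 * E : ℕ) : ℤ) := by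
          rw [abs_mul]
          refine mul_le_mul ?_ (hee _ _) (abs_nonneg _) (Int.natCast_nonneg _)
          rw [Int.abs_eq_natAbs]
          exact_mod_cast hβle
        have h2 : |γ * (e 0 - e 1)| ≤ ((Δ * g₀ : ℕ) : ℤ) * ((2 * E : ℕ) : ℤ) := by
          rw [abs_mul]
          refine mul_le_mul ?_ (hee _ _) (abs_nonneg _) (Int.natCast_nonneg _)
          rw [Int.abs_eq_natAbs]
          exact_mod_cast hγle
        have h3 : ((4 * E * (Δ * g₀) : ℕ) : ℤ) ≤ ((r ^ 2 : ℕ) : ℤ) := by exact_mod_cast hr2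
        push_cast at h1 h2 h3 ⊢
        linarith) hs2
      ((S.filter fun D => (g D, a D 0, a D 1, a D 2) = (g₀, α, β, γ)).image m) (by
        intro μ hμ
        obtain ⟨D, hD, rfl⟩ := mem_image.1 hμ
        obtain ⟨q0, q1, q2, q3, q4⟩ := hfac D hD
        have d := h.dat D q0
        refine ⟨h.msq q0, ?_, (x D 0, x D 1, x D 2), ?_, hB D q0 0, hB D q0 1, hB D q0 2⟩
        · rw [Int.abs_eq_natAbs]
          have : (m D).natAbs ≤ N / g₀ := by
            rw [Nat.le_div_iff_mul_le hg0, mul_comm, ← q1]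
            exact h.gm q0
          exact_mod_cast this
        · refine Sol.pnt (ξ := ξ D) ⟨by exact_mod_cast d.pos _, by exact_mod_cast d.pos _,
            by exact_mod_cast d.pos _, ?_, ?_, ?_⟩
          · rw [← q2]; exact d.eq _
          · rw [← q3]; exact d.eq _
          · rw [← q4]; exact d.eq _)
    rw [card_image_of_injOn] at key
    · have key' : (((S.filter fun D => (g D, a D 0, a D 1, a D 2) = (g₀, α, β, γ)).card : ℕ) : ℝ) ≤
          (4 * r * s + 1) * (2 * ((Nat.log 2 B + 1 : ℕ) : ℝ) ^ 2) := by exact_mod_cast key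
      refine key'.trans ?_
      have hE0 : (0 : ℝ) ≤ E := Nat.cast_nonneg _
      have hg1 : (1 : ℝ) ≤ g₀ := by exact_mod_cast hg0
      have hΔ1 : (1 : ℝ) ≤ Δ := by exact_mod_cast hΔ
      have hgN' : (g₀ : ℝ) ≤ N := by exact_mod_cast hgN
      have hNg : 1 ≤ (N : ℝ) / g₀ := by
        rw [le_div_iff₀ (by linarith)]
        linarith
      have hΔg : (1 : ℝ) ≤ Δ * g₀ := by nlinarith
      obtain ⟨u, hu⟩ : ∃ u, u = √(((E : ℝ) + 1) * (Δ * g₀)) := ⟨_, rfl⟩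
      obtain ⟨v, hv⟩ : ∃ v, v = √(((E : ℝ) + 1) * ((N : ℝ) / g₀)) := ⟨_, rfl⟩
      have hu1 : 1 ≤ u := by
        rw [hu, Real.one_le_sqrt]
        nlinarith
      have hv1 : 1 ≤ v := by
        rw [hv, Real.one_le_sqrt]
        nlinarith
      have hru : (r : ℝ) ≤ 3 * u := by
        have h1 : ((Nat.sqrt (4 * E * (Δ * g₀)) : ℕ) : ℝ) ≤ 2 * u := by
          refine (Real.nat_sqrt_le_real_sqrt).trans ?_
          rw [Real.sqrt_le_left (by linarith), mul_pow, hu, Real.sq_sqrt (by positivity)]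
          push_cast
          nlinarith
        rw [hr]
        push_cast
        linarith
      have hsv : (s : ℝ) ≤ 3 * v := by
        have h1 : ((Nat.sqrt (2 * E * (N / g₀)) : ℕ) : ℝ) ≤ 2 * v := by
          refine (Real.nat_sqrt_le_real_sqrt).trans ?_
          rw [Real.sqrt_le_left (by linarith), mul_pow, hv, Real.sq_sqrt (by positivity)]
          have h2 : ((2 * E * (N / g₀) : ℕ) : ℝ) ≤ 2 * E * ((N : ℝ) / g₀) := by
            push_cast
            exact mul_le_mul_of_nonneg_left Nat.cast_div_le (by positivity)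
          refine h2.trans ?_
          nlinarith
        rw [hs]
        push_cast
        linarith
      have huv : u * v = (E + 1) * √((Δ * N : ℕ) : ℝ) := by
        rw [hu, hv, ← Real.sqrt_mul (by positivity)]
        have : ((E : ℝ) + 1) * (Δ * g₀) * (((E : ℝ) + 1) * ((N : ℝ) / g₀)) =
            ((E : ℝ) + 1) ^ 2 * ((Δ * N : ℕ) : ℝ) := by
          push_cast
          field_simp
        rw [this, Real.sqrt_mul (by positivity), Real.sqrt_sq (by positivity)]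
      have h4 : 4 * (r : ℝ) * s + 1 ≤ 37 * (E + 1) * √((Δ * N : ℕ) : ℝ) := by
        have h5 : (r : ℝ) * s ≤ (3 * u) * (3 * v) :=
          mul_le_mul hru hsv (Nat.cast_nonneg _) (by positivity)
        have h6 : 1 ≤ u * v := by nlinarith
        have h7 : (3 * u) * (3 * v) = 9 * (u * v) := by ring
        rw [h7] at h5
        calc 4 * (r : ℝ) * s + 1 ≤ 37 * (u * v) := by linarith
          _ = _ := by rw [huv]; ring
      gcongr
    · intro D hD D' hD' hDD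
      obtain ⟨q0, q1, -⟩ := hfac D hD
      obtain ⟨q0', q1', -⟩ := hfac D' hD'
      rw [(h.dat D q0).hD, (h.dat D' q0').hD, q1, q1', hDD]

end Pool.Agent.H49SH
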