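import Pool.Agent.H49TW.CntA
import Pool.Agent.H49TW.Fac

/-!
# Descent on the quadratic twists of `y² = f(x)`, `f` of odd degree with four simple integer roots
-/

set_option autoImplicit false

open Polynomial

namespace Pool.Agent.H49SH

open Pool.Agent.H49TW

/-- the homogenisation of `f` -/
noncomputable def hom (f : ℤ[X]) (x z : ℤ) : ℤ := (f.scaleRoots z).eval x

theorem hom_smul (f : ℤ[X]) (g x z : ℤ) : hom f (g * x) (g * z) = g ^ f.natDegree * hom f x z := by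
  unfold hom
  rw [mul_comm g z, scaleRoots_mul, scaleRoots_eval_mul, natDegree_scaleRoots]

/-- the factor belonging to a root -/
theorem exists_factor {f : ℤ[X]} {e : ℤ} (he : f.eval e = 0) : ∃ q : ℤ[X], f = (X - C e) * q ∧
    f.derivative.eval e = q.eval e ∧ ∀ x z : ℤ, hom f x z = (x - e * z) * hom q x z := by
  obtain ⟨q, hq⟩ := dvd_iff_isRoot.2 he
  refine ⟨q, hq, ?_, ?_⟩
  · rw [hq, derivative_mul]
    simp
  · intro x z
    unfold hom
    rw [hq, mul_scaleRoots_of_noZeroDivisors, eval_mul, X_sub_C_scaleRoots]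
    simp

/-- the cofactor modulo `x - e z` -/
theorem dvd_cofactor (q : ℤ[X]) (e x z : ℤ) : x - e * z ∣ hom q x z - z ^ q.natDegree * q.eval e := by
  unfold hom
  have h := sub_dvd_eval_sub x (e * z) (q.scaleRoots z)
  rw [mul_comm e z, scaleRoots_eval_mul] at h
  rwa [mul_comm z e] at h

/-- the data attached to an integral point -/
structure Dat (f : ℤ[X]) (e : Fin 4 → ℤ) (Δ : ℕ) (D : ℤ) (g : ℕ) (ξ m : ℤ) (a : Fin 4 → ℤ)
    (x : Fin 4 → ℕ) : Prop where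
  hD : D = g * m
  g0 : 0 < g
  cop : IsCoprime ξ m
  sq : ∃ w : ℤ, w ≠ 0 ∧ (g : ℤ) * hom f ξ m = w ^ 2
  pos : ∀ i, 0 < x i
  eq : ∀ i, ξ - e i * m = a i * (x i : ℤ) ^ 2
  ne : ∀ i, a i ≠ 0
  am : ∀ i, m.natAbs.Coprime (a i).natAbs
  dvd : ∀ i, (a i).natAbs ∣ Δ * g
  prod : ∏ i, (a i).natAbs ≤ Δ * g

/-- `D` is determined by `(ξ, m)` -/
theorem Dat.unique {f : ℤ[X]} {e e' : Fin 4 → ℤ} {Δ Δ' : ℕ} {D D' : ℤ} {g g' : ℕ} {ξ m : ℤ}
    {a a' : Fin 4 → ℤ} {x x' : Fin 4 → ℕ} (h : Dat f e Δ D g ξ m a x)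
    (h' : Dat f e' Δ' D' g' ξ m a' x') (hD : Squarefree D) (hD' : Squarefree D') : D = D' := by
  obtain ⟨w, hw0, hw⟩ := h.sq
  obtain ⟨w', hw0', hw'⟩ := h'.sq
  have s1 : Squarefree g := by
    have h1 : (g : ℤ) ∣ D := ⟨m, h.hD⟩
    have h2 := hD.squarefree_of_dvd h1
    exact Int.squarefree_natCast.1 h2
  have s2 : Squarefree g' := by
    have h1 : (g' : ℤ) ∣ D' := ⟨m, h'.hD⟩
    have h2 := hD'.squarefree_of_dvd h1
    exact Int.squarefree_natCast.1 h2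
  have h1 : (g : ℤ) * w' ^ 2 = g' * w ^ 2 := by
    rw [← hw, ← hw']; ring
  have h2 : g * w'.natAbs ^ 2 = g' * w.natAbs ^ 2 := by
    have := congrArg Int.natAbs h1
    rw [Int.natAbs_mul, Int.natAbs_mul, Int.natAbs_pow, Int.natAbs_pow, Int.natAbs_natCast,
      Int.natAbs_natCast] at this
    exact this
  have h3 : g = g' := sqf_unique s1 s2 (Int.natAbs_ne_zero.2 hw0') (Int.natAbs_ne_zero.2 hw0) h2
  rw [h.hD, h'.hD, h3]

/-- a prime dividing the squarefree part of a factor divides `g` -/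
theorem prime_dvd_g {t b Q g w p : ℕ} (hp : p.Prime) (ht : Squarefree t) (hb : b ≠ 0) (hQ : Q ≠ 0)
    (hg : g ≠ 0) (hw : w ≠ 0) (h : g * (b ^ 2 * t * Q) = w ^ 2) (hpt : p ∣ t) (hpQ : ¬ p ∣ Q) :
    p ∣ g := by
  by_contra hpg
  have h1 := congrArg (fun n => n.factorization p) h
  have ht0 := ht.ne_zero
  have hb2 : b ^ 2 ≠ 0 := pow_ne_zero 2 hb
  rw [Nat.factorization_mul hg (mul_ne_zero (mul_ne_zero hb2 ht0) hQ),
    Nat.factorization_mul (mul_ne_zero hb2 ht0) hQ, Nat.factorization_mul hb2 ht0,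
    Nat.factorization_pow, Nat.factorization_pow] at h1
  simp only [Finsupp.add_apply, Finsupp.smul_apply, smul_eq_mul] at h1
  have h2 := Nat.factorization_eq_zero_of_not_dvd hpg
  have h3 := Nat.factorization_eq_zero_of_not_dvd hpQ
  have h4 := ht.natFactorization_le_one p
  have h5 := (hp.dvd_iff_one_le_factorization ht0).1 hpt
  omega

theorem sq_root {g : ℕ} (hg : 0 < g) {n : ℕ} (hn : Odd n) {y F : ℤ} (hy : y ≠ 0)
    (h : y ^ 2 = (g : ℤ) ^ n * F) : ∃ w : ℤ, w ≠ 0 ∧ (g : ℤ) * F = w ^ 2 := by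
  obtain ⟨k, hk⟩ := hn
  have h1 : ((g : ℤ) ^ k) ^ 2 * ((g : ℤ) * F) = y ^ 2 := by
    rw [h, hk]; ring
  have h2 : (g : ℤ) ^ k ∣ y := by
    have : ((g : ℤ) ^ k) ^ 2 ∣ y ^ 2 := ⟨_, h1.symm⟩
    exact (Int.pow_dvd_pow_iff two_ne_zero).1 this
  obtain ⟨w, rfl⟩ := h2
  have hg' : ((g : ℤ) ^ k) ^ 2 ≠ 0 := by positivity
  refine ⟨w, ?_, ?_⟩
  · rintro rfl
    exact hy (by ring)
  · apply mul_left_cancel₀ hg'
    rw [h1]; ring

/-- the factor of the squarefree part -/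
theorem split_t {t c : ℕ} (ht : Squarefree t) (hc : c ≠ 0) : ∃ d : ℕ, t = Nat.gcd t c * d ∧
    Squarefree d ∧ ∀ p : ℕ, p.Prime → p ∣ d → ¬ p ∣ c := by
  obtain ⟨d, hd⟩ := Nat.gcd_dvd_left t c
  refine ⟨d, hd, ht.squarefree_of_dvd ⟨Nat.gcd t c, by rw [mul_comm]; exact hd⟩, ?_⟩
  intro p hp hpd hpc
  have h1 : p ∣ Nat.gcd t c := by
    refine Nat.dvd_gcd ?_ hpc
    rw [hd]
    exact hpd.mul_left _
  have h2 : p * p ∣ t := by
    rw [hd]
    exact mul_dvd_mul h1 hpd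
  exact hp.one_lt.ne' (Nat.isUnit_iff.1 (ht p h2))

theorem exists_dat {f : ℤ[X]} (hf : Odd f.natDegree) {e : Fin 4 → ℤ} (he : Function.Injective e)
    (hroot : ∀ i, f.eval (e i) = 0) (hsimple : ∀ i, f.derivative.eval (e i) ≠ 0) :
    ∃ Δ : ℕ, 1 ≤ Δ ∧ ∀ D x y : ℤ, Squarefree D → y ≠ 0 → y ^ 2 = hom f x D →
      ∃ (g : ℕ) (ξ m : ℤ) (a : Fin 4 → ℤ) (x' : Fin 4 → ℕ), Dat f e Δ D g ξ m a x' := by
  choose q hq hqd hqh using fun i => exists_factor (hroot i)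
  have hq0 : ∀ i, (q i).eval (e i) ≠ 0 := fun i => by rw [← hqd i]; exact hsimple i
  obtain ⟨c, hc⟩ : ∃ c : Fin 4 → ℕ, ∀ i, c i = ((q i).eval (e i)).natAbs := ⟨_, fun i => rfl⟩
  have hc0 : ∀ i, c i ≠ 0 := fun i => by rw [hc]; exact Int.natAbs_ne_zero.2 (hq0 i)
  have hΔ0 : ∏ i, c i ≠ 0 := Finset.prod_ne_zero_iff.2 fun i _ => hc0 i
  refine ⟨∏ i, c i, Nat.one_le_iff_ne_zero.2 hΔ0, ?_⟩
  intro D x y hD hy hxy
  have hD0 : D ≠ 0 := hD.ne_zero
  obtain ⟨g, hg⟩ : ∃ g, g = Int.gcd x D := ⟨_, rfl⟩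
  have hg0 : 0 < g := by rw [hg]; exact Int.gcd_pos_of_ne_zero_right _ hD0
  have hgz : (g : ℤ) ≠ 0 := by positivity
  obtain ⟨ξ, hξ⟩ : (g : ℤ) ∣ x := by rw [hg]; exact Int.gcd_dvd_left _ _
  obtain ⟨m, hm⟩ : (g : ℤ) ∣ D := by rw [hg]; exact Int.gcd_dvd_right _ _
  have hcop : IsCoprime ξ m := by
    rw [Int.isCoprime_iff_gcd_eq_one]
    have h1 : Int.gcd ((g : ℤ) * ξ) ((g : ℤ) * m) = g := by rw [← hξ, ← hm, ← hg]
    rw [Int.gcd_mul_left, Int.natAbs_natCast] at h1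
    have h2 : g * Int.gcd ξ m = g * 1 := by rw [h1, mul_one]
    exact Nat.eq_of_mul_eq_mul_left hg0 h2
  obtain ⟨w, hw0, hw⟩ : ∃ w : ℤ, w ≠ 0 ∧ (g : ℤ) * hom f ξ m = w ^ 2 := by
    apply sq_root hg0 hf hy
    rw [hxy, hξ, hm, hom_smul]
  have hF0 : hom f ξ m ≠ 0 := by
    intro h0
    rw [h0, mul_zero] at hw
    exact hw0 (pow_eq_zero_iff two_ne_zero |>.1 hw.symm)
  have hW0 : ∀ i, ξ - e i * m ≠ 0 := fun i h0 => hF0 (by rw [hqh i, h0, zero_mul])
  have hQ0 : ∀ i, hom (q i) ξ m ≠ 0 := fun i h0 => hF0 (by rw [hqh i, h0, mul_zero])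
  choose t b htb ht using fun i => Nat.sq_mul_squarefree (ξ - e i * m).natAbs
  have hb0 : ∀ i, b i ≠ 0 := by
    intro i h0
    have := htb i
    rw [h0] at this
    exact hW0 i (Int.natAbs_eq_zero.1 (by rw [← this]; ring))
  have ht0 : ∀ i, t i ≠ 0 := fun i => (ht i).ne_zero
  -- primes
  have hpm : ∀ i (p : ℕ), p.Prime → p ∣ t i → ¬ (p : ℤ) ∣ m := by
    intro i p hp hpt hpm
    have h1 : (p : ℤ) ∣ ξ - e i * m := by
      rw [← Int.dvd_natAbs, ← htb i]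
      exact_mod_cast hpt.mul_left _
    have h2 : (p : ℤ) ∣ ξ := by
      have := dvd_add h1 (hpm.mul_left (e i))
      rwa [sub_add_cancel] at this
    have h3 := hcop.isUnit_of_dvd' h2 hpm
    rw [Int.isUnit_iff] at h3
    have := hp.one_lt
    omega
  have hpQ : ∀ i (p : ℕ), p.Prime → p ∣ t i → ¬ p ∣ c i → ¬ (p : ℤ) ∣ hom (q i) ξ m := by
    intro i p hp hpt hpc h0
    have h1 : (p : ℤ) ∣ ξ - e i * m := by
      rw [← Int.dvd_natAbs, ← htb i]
      exact_mod_cast hpt.mul_left _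
    have h2 := h1.trans (dvd_cofactor (q i) (e i) ξ m)
    have h3 : (p : ℤ) ∣ m ^ (q i).natDegree * (q i).eval (e i) := by
      have := dvd_sub h0 h2
      rwa [sub_sub_cancel] at this
    rcases (Nat.prime_iff_prime_int.1 hp).dvd_or_dvd h3 with h4 | h4
    · exact hpm i p hp hpt ((Nat.prime_iff_prime_int.1 hp).dvd_of_dvd_pow h4)
    · apply hpc
      rw [hc]
      exact Int.natCast_dvd.1 h4
  have hpg : ∀ i (p : ℕ), p.Prime → p ∣ t i → ¬ p ∣ c i → p ∣ g := by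
    intro i p hp hpt hpc
    have h1 : g * (b i ^ 2 * t i * (hom (q i) ξ m).natAbs) = w.natAbs ^ 2 := by
      rw [htb i, ← Int.natAbs_mul, ← hqh i, ← Int.natAbs_pow, ← hw, Int.natAbs_mul,
        Int.natAbs_natCast]
    exact prime_dvd_g hp (ht i) (hb0 i) (Int.natAbs_ne_zero.2 (hQ0 i)) hg0.ne'
      (Int.natAbs_ne_zero.2 hw0) h1 hpt (fun h => hpQ i p hp hpt hpc (Int.natCast_dvd.2 h))
  choose d hd hdsq hdp using fun i => split_t (ht i) (hc0 i)
  have hdt : ∀ i, d i ∣ t i := fun i => ⟨Nat.gcd (t i) (c i), by rw [mul_comm]; exact hd i⟩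
  have hdg : ∀ i, d i ∣ g := by
    intro i
    have h1 : ((d i : ℕ) : ℤ) ∣ ((g : ℕ) : ℤ) := by
      apply dvd_of_primes (hdsq i)
      intro p hp hpd
      exact_mod_cast hpg i p hp (hpd.trans (hdt i)) (hdp i p hp hpd)
    exact_mod_cast h1
  have hdc : ∀ i j, i ≠ j → (d i).Coprime (d j) := by
    intro i j hij
    rw [Nat.coprime_iff_isRelPrime]
    by_contra hnc
    rw [← Nat.coprime_iff_isRelPrime] at hnc
    obtain ⟨p, hp, h1, h2⟩ := Nat.Prime.not_coprime_iff_dvd.1 hnc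
    have w1 : (p : ℤ) ∣ ξ - e i * m := by
      rw [← Int.dvd_natAbs, ← htb i]
      exact_mod_cast (h1.trans (hdt i)).mul_left _
    have w2 : (p : ℤ) ∣ ξ - e j * m := by
      rw [← Int.dvd_natAbs, ← htb j]
      exact_mod_cast (h2.trans (hdt j)).mul_left _
    have w3 : (p : ℤ) ∣ (e j - e i) * m := by
      have := dvd_sub w1 w2
      have e1 : ξ - e i * m - (ξ - e j * m) = (e j - e i) * m := by ring
      rwa [e1] at this
    have w4 : (p : ℤ) ∣ e j - e i := by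
      rcases (Nat.prime_iff_prime_int.1 hp).dvd_or_dvd w3 with h4 | h4
      · exact h4
      · exact absurd h4 (hpm i p hp (h1.trans (hdt i)))
    have w5 : (q i).eval (e j) = 0 := by
      have h3 := hroot j
      rw [hq i, eval_mul] at h3
      rcases mul_eq_zero.1 h3 with h4 | h4
      · simp only [eval_sub, eval_X, eval_C] at h4
        exact absurd (he (by linarith : e j = e i)) hij.symm
      · exact h4
    have w6 : (p : ℤ) ∣ (q i).eval (e i) := by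
      have := w4.trans (sub_dvd_eval_sub (e j) (e i) (q i))
      rw [w5, zero_sub, dvd_neg] at this
      exact this
    apply hdp i p hp h1
    rw [hc]
    exact Int.natCast_dvd.1 w6
  have hprodd : ∏ i, d i ∣ g := by
    rw [Fin.prod_univ_four]
    apply Nat.Coprime.mul_dvd_of_dvd_of_dvd _ _ (hdg 3)
    · exact Nat.Coprime.mul_left (Nat.Coprime.mul_left (hdc 0 3 (by decide)) (hdc 1 3 (by decide)))
        (hdc 2 3 (by decide))
    apply Nat.Coprime.mul_dvd_of_dvd_of_dvd _ _ (hdg 2)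
    · exact Nat.Coprime.mul_left (hdc 0 2 (by decide)) (hdc 1 2 (by decide))
    exact Nat.Coprime.mul_dvd_of_dvd_of_dvd (hdc 0 1 (by decide)) (hdg 0) (hdg 1)
  -- the coefficients
  obtain ⟨a, ha⟩ : ∃ a : Fin 4 → ℤ, ∀ i, a i = (ξ - e i * m).sign * t i := ⟨_, fun i => rfl⟩
  have hat : ∀ i, (a i).natAbs = t i := by
    intro i
    rw [ha, Int.natAbs_mul, Int.natAbs_natCast, Int.natAbs_sign_of_ne_zero (hW0 i), one_mul]
  refine ⟨g, ξ, m, a, b, ⟨hm, hg0, hcop, ⟨w, hw0, hw⟩, fun i => Nat.pos_of_ne_zero (hb0 i), ?_, ?_,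
    ?_, ?_, ?_⟩⟩
  · intro i
    have h1 : (((ξ - e i * m).natAbs : ℕ) : ℤ) = (b i : ℤ) ^ 2 * t i := by
      rw [← htb i]; push_cast; ring
    calc ξ - e i * m = (ξ - e i * m).sign * ((ξ - e i * m).natAbs : ℤ) :=
          (Int.sign_mul_natAbs _).symm
      _ = a i * (b i : ℤ) ^ 2 := by rw [h1, ha]; ring
  · intro i h0
    exact ht0 i (by rw [← hat, h0]; rfl)
  · intro i
    rw [hat]
    by_contra hnc
    obtain ⟨p, hp, h1, h2⟩ := Nat.Prime.not_coprime_iff_dvd.1 hnc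
    exact hpm i p hp h2 (Int.natCast_dvd.2 h1)
  · intro i
    rw [hat, hd i]
    exact mul_dvd_mul ((Nat.gcd_dvd_right _ _).trans (Finset.dvd_prod_of_mem c (Finset.mem_univ i)))
      (hdg i)
  · calc ∏ i, (a i).natAbs = ∏ i, (Nat.gcd (t i) (c i) * d i) :=
          Finset.prod_congr rfl fun i _ => by rw [hat]; exact hd i
      _ = (∏ i, Nat.gcd (t i) (c i)) * ∏ i, d i := Finset.prod_mul_distrib
      _ ≤ (∏ i, c i) * g := by
          refine Nat.mul_le_mul (Finset.prod_le_prod' fun i _ => ?_) (Nat.le_of_dvd hg0 hprodd)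
          exact Nat.le_of_dvd (Nat.pos_of_ne_zero (hc0 i)) (Nat.gcd_dvd_right _ _)

end Pool.Agent.H49SH
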