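import Pool.Agent.H49SH.Gap
import Pool.Agent.W257.HL.A5
import Pool.Agent.W257.HL.RED2
import Pool.Agent.W395.HL.Lin
import Pool.Agent.W864.HL.Quad

/-!
# Large points on the conics: the elliptic curves and the repulsion of the halves
-/

set_option autoImplicit false

open IntermediateField

namespace Pool.Agent.H49SH

open Pool.Agent.W257.HL

section real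

variable {ρ₁ ρ₂ ρ₃ x y l : ℝ}

/-- the coordinates of the half -/
theorem half_aux (hρ : ρ₁ + ρ₂ + ρ₃ = 0) (hy : y ^ 2 = (x - ρ₁) * (x - ρ₂) * (x - ρ₃))
    (hl : l ^ 4 - 6 * x * l ^ 2 + 8 * y * l -
      (3 * x ^ 2 + 4 * (ρ₁ * ρ₂ + ρ₁ * ρ₃ + ρ₂ * ρ₃)) = 0) {X Y : ℝ} (hX : X = (l ^ 2 - x) / 2)
    (hY : Y = -l * (X - x) - y) :
    Y ^ 2 = (X - ρ₁) * (X - ρ₂) * (X - ρ₃) ∧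
      2 * Y * (-l) = 3 * X ^ 2 + (ρ₁ * ρ₂ + ρ₁ * ρ₃ + ρ₂ * ρ₃) ∧ l ^ 2 = 2 * X + x := by
  have h3 : ρ₃ = -ρ₁ - ρ₂ := by linarith
  subst h3
  refine ⟨?_, ?_, ?_⟩
  · rw [hY, hX]
    linear_combination (((l ^ 2 - x) / 2 - x) / 4) * hl + hy
  · rw [hY, hX]
    linear_combination (1 / 4) * hl
  · rw [hX]; ring

theorem half_ne (h12 : ρ₁ ≠ ρ₂) (h13 : ρ₁ ≠ ρ₃) (h23 : ρ₂ ≠ ρ₃) (hρ : ρ₁ + ρ₂ + ρ₃ = 0) {X Y : ℝ}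
    (h1 : Y ^ 2 = (X - ρ₁) * (X - ρ₂) * (X - ρ₃))
    (h2 : 2 * Y * (-l) = 3 * X ^ 2 + (ρ₁ * ρ₂ + ρ₁ * ρ₃ + ρ₂ * ρ₃)) : Y ≠ 0 := by
  intro h0
  rw [h0] at h1 h2
  have e1 : (X - ρ₁) * (X - ρ₂) * (X - ρ₃) = 0 := by rw [← h1]; ring
  have e2 : (X - ρ₁) * (X - ρ₂) + (X - ρ₁) * (X - ρ₃) + (X - ρ₂) * (X - ρ₃) = 0 := by
    linear_combination -h2 + (-2 * X) * hρ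
  have d12 := sub_ne_zero.2 h12
  have d13 := sub_ne_zero.2 h13
  have d23 := sub_ne_zero.2 h23
  rcases mul_eq_zero.1 e1 with e3 | e3
  · rcases mul_eq_zero.1 e3 with e4 | e4
    · have : (ρ₁ - ρ₂) * (ρ₁ - ρ₃) = 0 := by
        have hXe : X = ρ₁ := by linarith
        rw [hXe] at e2
        linear_combination e2
      exact mul_ne_zero d12 d13 this
    · have : (ρ₁ - ρ₂) * (ρ₂ - ρ₃) = 0 := by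
        have hXe : X = ρ₂ := by linarith
        rw [hXe] at e2
        linear_combination -e2
      exact mul_ne_zero d12 d23 this
  · have : (ρ₁ - ρ₃) * (ρ₂ - ρ₃) = 0 := by
      have hXe : X = ρ₃ := by linarith
      rw [hXe] at e2
      linear_combination e2
    exact mul_ne_zero d13 d23 this

theorem theta_sq (hρ : ρ₁ + ρ₂ + ρ₃ = 0) {X Y : ℝ} (hY0 : Y ≠ 0)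
    (h1 : Y ^ 2 = (X - ρ₁) * (X - ρ₂) * (X - ρ₃))
    (h2 : 2 * Y * (-l) = 3 * X ^ 2 + (ρ₁ * ρ₂ + ρ₁ * ρ₃ + ρ₂ * ρ₃)) (h3 : l ^ 2 = 2 * X + x) :
    (((X - ρ₁) ^ 2 - (ρ₁ - ρ₂) * (ρ₁ - ρ₃)) / (2 * Y)) ^ 2 = x - ρ₁ := by
  rw [div_pow, div_eq_iff (by positivity)]
  have e : ρ₃ = -ρ₁ - ρ₂ := by linarith
  subst e
  have h4 : (2 * Y * (-l)) ^ 2 = (3 * X ^ 2 + (ρ₁ * ρ₂ + ρ₁ * (-ρ₁ - ρ₂) + ρ₂ * (-ρ₁ - ρ₂))) ^ 2 := by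
    rw [h2]
  linear_combination (-1 : ℝ) * h4 + (4 * Y ^ 2) * h3 + (4 * ρ₁ + 8 * X) * h1

/-- the root is a sum of square roots -/
theorem root_eq (hρ : ρ₁ + ρ₂ + ρ₃ = 0) {X Y : ℝ} (hY0 : Y ≠ 0)
    (h2 : 2 * Y * (-l) = 3 * X ^ 2 + (ρ₁ * ρ₂ + ρ₁ * ρ₃ + ρ₂ * ρ₃)) :
    l = -(((X - ρ₁) ^ 2 - (ρ₁ - ρ₂) * (ρ₁ - ρ₃)) / (2 * Y) +
      ((X - ρ₂) ^ 2 - (ρ₂ - ρ₁) * (ρ₂ - ρ₃)) / (2 * Y) +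
      ((X - ρ₃) ^ 2 - (ρ₃ - ρ₁) * (ρ₃ - ρ₂)) / (2 * Y)) := by
  rw [← add_div, ← add_div, ← neg_div, eq_div_iff (by positivity)]
  have e : ρ₃ = -ρ₁ - ρ₂ := by linarith
  subst e
  linear_combination (-1 : ℝ) * h2

/-- all together: the square roots of `x - ρ_i` -/
theorem exists_theta (K : IntermediateField ℚ ℝ) (h12 : ρ₁ ≠ ρ₂) (h13 : ρ₁ ≠ ρ₃) (h23 : ρ₂ ≠ ρ₃)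
    (k1 : ρ₁ ∈ K) (k2 : ρ₂ ∈ K) (k3 : ρ₃ ∈ K) (kx : x ∈ K) (ky : y ∈ K)
    (hρ : ρ₁ + ρ₂ + ρ₃ = 0) (hy : y ^ 2 = (x - ρ₁) * (x - ρ₂) * (x - ρ₃))
    (hl : l ^ 4 - 6 * x * l ^ 2 + 8 * y * l -
      (3 * x ^ 2 + 4 * (ρ₁ * ρ₂ + ρ₁ * ρ₃ + ρ₂ * ρ₃)) = 0) :
    ∃ θ₁ θ₂ θ₃ : ℝ, θ₁ ^ 2 = x - ρ₁ ∧ θ₂ ^ 2 = x - ρ₂ ∧ θ₃ ^ 2 = x - ρ₃ ∧ l = -(θ₁ + θ₂ + θ₃) ∧
      (l ∈ K → θ₁ ∈ K ∧ θ₂ ∈ K ∧ θ₃ ∈ K) := by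
  obtain ⟨X, hX⟩ : ∃ X : ℝ, X = (l ^ 2 - x) / 2 := ⟨_, rfl⟩
  obtain ⟨Y, hY⟩ : ∃ Y : ℝ, Y = -l * (X - x) - y := ⟨_, rfl⟩
  obtain ⟨h1, h2, h3⟩ := half_aux hρ hy hl hX hY
  have hY0 := half_ne h12 h13 h23 hρ h1 h2
  refine ⟨_, _, _, theta_sq hρ hY0 h1 h2 h3,
    theta_sq (ρ₁ := ρ₂) (ρ₂ := ρ₁) (ρ₃ := ρ₃) (by linarith) hY0 (by rw [h1]; ring)
      (by rw [h2]; ring) h3,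
    theta_sq (ρ₁ := ρ₃) (ρ₂ := ρ₁) (ρ₃ := ρ₂) (by linarith) hY0 (by rw [h1]; ring)
      (by rw [h2]; ring) h3, root_eq hρ hY0 h2, ?_⟩
  intro kl
  have two : (2 : ℝ) ∈ K := by exact_mod_cast intCast_mem K 2
  have kX : X ∈ K := by
    rw [hX]
    exact K.div_mem (K.sub_mem (pow_mem kl 2) kx) two
  have kY : Y ∈ K := by
    rw [hY]
    exact K.sub_mem (K.mul_mem (K.neg_mem kl) (K.sub_mem kX kx)) ky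
  have k2Y : 2 * Y ∈ K := K.mul_mem two kY
  exact ⟨K.div_mem (K.sub_mem (pow_mem (K.sub_mem kX k1) 2)
      (K.mul_mem (K.sub_mem k1 k2) (K.sub_mem k1 k3))) k2Y,
    K.div_mem (K.sub_mem (pow_mem (K.sub_mem kX k2) 2)
      (K.mul_mem (K.sub_mem k2 k1) (K.sub_mem k2 k3))) k2Y,
    K.div_mem (K.sub_mem (pow_mem (K.sub_mem kX k3) 2)
      (K.mul_mem (K.sub_mem k3 k1) (K.sub_mem k3 k2))) k2Y⟩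

end real

/-- the normalised roots -/
def ep (e₁ e₂ e₃ e : ℤ) : ℤ := 3 * (3 * e - (e₁ + e₂ + e₃))

/-- the coefficients of the elliptic curve -/
def cA (a₁ a₂ a₃ e₁ e₂ e₃ m : ℤ) : ℤ := (a₁ * a₂ * a₃ * m) ^ 2 *
  (ep e₁ e₂ e₃ e₁ * ep e₁ e₂ e₃ e₂ + ep e₁ e₂ e₃ e₁ * ep e₁ e₂ e₃ e₃ +
    ep e₁ e₂ e₃ e₂ * ep e₁ e₂ e₃ e₃)
def cB (a₁ a₂ a₃ e₁ e₂ e₃ m : ℤ) : ℤ := -((a₁ * a₂ * a₃ * m) ^ 3 *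
  (ep e₁ e₂ e₃ e₁ * ep e₁ e₂ e₃ e₂ * ep e₁ e₂ e₃ e₃))
/-- the point -/
def px (a₁ a₂ a₃ e₁ e₂ e₃ ξ m : ℤ) : ℤ := a₁ * a₂ * a₃ * (9 * ξ - 3 * (e₁ + e₂ + e₃) * m)
def py (a₁ a₂ a₃ x₁ x₂ x₃ : ℤ) : ℤ := 27 * (a₁ * a₂ * a₃) ^ 2 * (x₁ * x₂ * x₃)

variable {a₁ a₂ a₃ e₁ e₂ e₃ ξ η m k x₁ x₂ x₃ y₁ y₂ y₃ : ℤ}

theorem Sol.curve (h : Sol a₁ a₂ a₃ e₁ e₂ e₃ ξ m x₁ x₂ x₃) :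
    (py a₁ a₂ a₃ x₁ x₂ x₃) ^ 2 = (px a₁ a₂ a₃ e₁ e₂ e₃ ξ m) ^ 3 +
      cA a₁ a₂ a₃ e₁ e₂ e₃ m * px a₁ a₂ a₃ e₁ e₂ e₃ ξ m + cB a₁ a₂ a₃ e₁ e₂ e₃ m := by
  have h0 : (ξ - e₁ * m) * (ξ - e₂ * m) * (ξ - e₃ * m) =
      (a₁ * x₁ ^ 2) * (a₂ * x₂ ^ 2) * (a₃ * x₃ ^ 2) := by rw [h.h1, h.h2, h.h3]
  unfold py px cA cB ep
  linear_combination (-729 * (a₁ * a₂ * a₃) ^ 3) * h0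

theorem nonsing (ha1 : a₁ ≠ 0) (ha2 : a₂ ≠ 0) (ha3 : a₃ ≠ 0) (h12 : e₁ ≠ e₂) (h13 : e₁ ≠ e₃)
    (h23 : e₂ ≠ e₃) (hm : m ≠ 0) :
    4 * (cA a₁ a₂ a₃ e₁ e₂ e₃ m) ^ 3 + 27 * (cB a₁ a₂ a₃ e₁ e₂ e₃ m) ^ 2 ≠ 0 := by
  have h0 : 4 * (cA a₁ a₂ a₃ e₁ e₂ e₃ m) ^ 3 + 27 * (cB a₁ a₂ a₃ e₁ e₂ e₃ m) ^ 2 =
      -((a₁ * a₂ * a₃ * m) ^ 3 * (9 ^ 3 * ((e₁ - e₂) * (e₁ - e₃) * (e₂ - e₃)))) ^ 2 := by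
    unfold cA cB ep
    ring
  rw [h0, neg_ne_zero]
  have d12 := sub_ne_zero.2 h12
  have d13 := sub_ne_zero.2 h13
  have d23 := sub_ne_zero.2 h23
  positivity

/-- the square roots generate the field of the halves -/
theorem roots_gen (ha1 : a₁ ≠ 0) (ha2 : a₂ ≠ 0) (ha3 : a₃ ≠ 0) (h12 : e₁ ≠ e₂) (h13 : e₁ ≠ e₃)
    (h23 : e₂ ≠ e₃) (hm : m ≠ 0) (h : Sol a₁ a₂ a₃ e₁ e₂ e₃ ξ m x₁ x₂ x₃)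
    (K : IntermediateField ℚ ℝ) {l : ℝ}
    (hl : l ^ 4 - 6 * (px a₁ a₂ a₃ e₁ e₂ e₃ ξ m : ℤ) * l ^ 2 + 8 * (py a₁ a₂ a₃ x₁ x₂ x₃ : ℤ) * l -
      (3 * (px a₁ a₂ a₃ e₁ e₂ e₃ ξ m : ℤ) ^ 2 + 4 * (cA a₁ a₂ a₃ e₁ e₂ e₃ m : ℤ)) = 0) :
    ∃ θ₁ θ₂ θ₃ : ℝ, θ₁ ^ 2 = a₁ * a₂ * a₃ * a₁ * (3 * x₁) ^ 2 ∧
      θ₂ ^ 2 = a₁ * a₂ * a₃ * a₂ * (3 * x₂) ^ 2 ∧
      θ₃ ^ 2 = a₁ * a₂ * a₃ * a₃ * (3 * x₃) ^ 2 ∧ l = -(θ₁ + θ₂ + θ₃) ∧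
      (l ∈ K → θ₁ ∈ K ∧ θ₂ ∈ K ∧ θ₃ ∈ K) := by
  have hτ : a₁ * a₂ * a₃ * m ≠ 0 := by positivity
  have hinj : ∀ e e' : ℤ, e ≠ e' → ((a₁ * a₂ * a₃ * m * ep e₁ e₂ e₃ e : ℤ) : ℝ) ≠
      ((a₁ * a₂ * a₃ * m * ep e₁ e₂ e₃ e' : ℤ) : ℝ) := by
    intro e e' hne h0
    have h1 : a₁ * a₂ * a₃ * m * ep e₁ e₂ e₃ e = a₁ * a₂ * a₃ * m * ep e₁ e₂ e₃ e' := by
      exact_mod_cast h0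
    have h2 := mul_left_cancel₀ hτ h1
    unfold ep at h2
    apply hne
    linarith
  have hx : ∀ (a e x : ℤ), ξ - e * m = a * x ^ 2 →
      ((px a₁ a₂ a₃ e₁ e₂ e₃ ξ m : ℤ) : ℝ) - ((a₁ * a₂ * a₃ * m * ep e₁ e₂ e₃ e : ℤ) : ℝ) =
      a₁ * a₂ * a₃ * a * (3 * x) ^ 2 := by
    intro a e x h0
    have h1 : px a₁ a₂ a₃ e₁ e₂ e₃ ξ m - a₁ * a₂ * a₃ * m * ep e₁ e₂ e₃ e =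
      a₁ * a₂ * a₃ * a * (3 * x) ^ 2 := by
      unfold px ep
      linear_combination (9 * (a₁ * a₂ * a₃)) * h0
    exact_mod_cast h1
  have e1 := hx a₁ e₁ x₁ h.h1
  have e2 := hx a₂ e₂ x₂ h.h2
  have e3 := hx a₃ e₃ x₃ h.h3
  have km : ∀ z : ℤ, (z : ℝ) ∈ K := fun z => intCast_mem K z
  have hsum : ((a₁ * a₂ * a₃ * m * ep e₁ e₂ e₃ e₁ : ℤ) : ℝ) +
      ((a₁ * a₂ * a₃ * m * ep e₁ e₂ e₃ e₂ : ℤ) : ℝ) +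
      ((a₁ * a₂ * a₃ * m * ep e₁ e₂ e₃ e₃ : ℤ) : ℝ) = 0 := by
    have : a₁ * a₂ * a₃ * m * ep e₁ e₂ e₃ e₁ + a₁ * a₂ * a₃ * m * ep e₁ e₂ e₃ e₂ +
      a₁ * a₂ * a₃ * m * ep e₁ e₂ e₃ e₃ = 0 := by
      unfold ep; ring
    exact_mod_cast this
  have hy : ((py a₁ a₂ a₃ x₁ x₂ x₃ : ℤ) : ℝ) ^ 2 =
      (((px a₁ a₂ a₃ e₁ e₂ e₃ ξ m : ℤ) : ℝ) - ((a₁ * a₂ * a₃ * m * ep e₁ e₂ e₃ e₁ : ℤ) : ℝ)) *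
      (((px a₁ a₂ a₃ e₁ e₂ e₃ ξ m : ℤ) : ℝ) - ((a₁ * a₂ * a₃ * m * ep e₁ e₂ e₃ e₂ : ℤ) : ℝ)) *
      (((px a₁ a₂ a₃ e₁ e₂ e₃ ξ m : ℤ) : ℝ) - ((a₁ * a₂ * a₃ * m * ep e₁ e₂ e₃ e₃ : ℤ) : ℝ)) := by
    rw [e1, e2, e3]
    unfold py
    push_cast
    ring
  have hcA : ((cA a₁ a₂ a₃ e₁ e₂ e₃ m : ℤ) : ℝ) =
      ((a₁ * a₂ * a₃ * m * ep e₁ e₂ e₃ e₁ : ℤ) : ℝ) * ((a₁ * a₂ * a₃ * m * ep e₁ e₂ e₃ e₂ : ℤ) : ℝ) +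
      ((a₁ * a₂ * a₃ * m * ep e₁ e₂ e₃ e₁ : ℤ) : ℝ) * ((a₁ * a₂ * a₃ * m * ep e₁ e₂ e₃ e₃ : ℤ) : ℝ) +
      ((a₁ * a₂ * a₃ * m * ep e₁ e₂ e₃ e₂ : ℤ) : ℝ) *
        ((a₁ * a₂ * a₃ * m * ep e₁ e₂ e₃ e₃ : ℤ) : ℝ) := by
    unfold cA
    push_cast
    ring
  rw [hcA] at hl
  obtain ⟨θ₁, θ₂, θ₃, t1, t2, t3, t4, t5⟩ := exists_theta K (hinj _ _ h12) (hinj _ _ h13)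
    (hinj _ _ h23) (km _) (km _) (km _) (km _) (km _) hsum hy hl
  exact ⟨θ₁, θ₂, θ₃, t1.trans e1, t2.trans e2, t3.trans e3, t4, t5⟩

/-- two points with the same `a_i` -/
theorem roots_mem (ha1 : a₁ ≠ 0) (ha2 : a₂ ≠ 0) (ha3 : a₃ ≠ 0) (h12 : e₁ ≠ e₂) (h13 : e₁ ≠ e₃)
    (h23 : e₂ ≠ e₃) (hm : m ≠ 0) (hk : k ≠ 0) (h : Sol a₁ a₂ a₃ e₁ e₂ e₃ ξ m x₁ x₂ x₃)
    (h' : Sol a₁ a₂ a₃ e₁ e₂ e₃ η k y₁ y₂ y₃) {l l' : ℝ}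
    (hl : l ^ 4 - 6 * (px a₁ a₂ a₃ e₁ e₂ e₃ ξ m : ℤ) * l ^ 2 + 8 * (py a₁ a₂ a₃ x₁ x₂ x₃ : ℤ) * l -
      (3 * (px a₁ a₂ a₃ e₁ e₂ e₃ ξ m : ℤ) ^ 2 + 4 * (cA a₁ a₂ a₃ e₁ e₂ e₃ m : ℤ)) = 0)
    (hl' : l' ^ 4 - 6 * (px a₁ a₂ a₃ e₁ e₂ e₃ η k : ℤ) * l' ^ 2 +
      8 * (py a₁ a₂ a₃ y₁ y₂ y₃ : ℤ) * l' -
      (3 * (px a₁ a₂ a₃ e₁ e₂ e₃ η k : ℤ) ^ 2 + 4 * (cA a₁ a₂ a₃ e₁ e₂ e₃ k : ℤ)) = 0) :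
    l' ∈ ℚ⟮l⟯ := by
  obtain ⟨θ₁, θ₂, θ₃, s1, s2, s3, -, s5⟩ := roots_gen ha1 ha2 ha3 h12 h13 h23 hm h ℚ⟮l⟯ hl
  obtain ⟨φ₁, φ₂, φ₃, t1, t2, t3, t4, -⟩ := roots_gen ha1 ha2 ha3 h12 h13 h23 hk h' ℚ⟮l⟯ hl'
  obtain ⟨k1, k2, k3⟩ := s5 (mem_adjoin_simple_self ℚ l)
  have key : ∀ (θ φ A : ℝ) (x y : ℤ), 0 < x → 0 < y → θ ∈ ℚ⟮l⟯ → θ ^ 2 = A * (3 * x) ^ 2 →
      φ ^ 2 = A * (3 * y) ^ 2 → φ ∈ ℚ⟮l⟯ := by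
    intro θ φ A x y hx hy hθ h1 h2
    have hx' : (0 : ℝ) < x := by exact_mod_cast hx
    have h3 : (φ * x) ^ 2 = (θ * y) ^ 2 := by
      rw [mul_pow, mul_pow, h1, h2]; ring
    have hX : (x : ℝ) ∈ ℚ⟮l⟯ := intCast_mem _ x
    have hY : (y : ℝ) ∈ ℚ⟮l⟯ := intCast_mem _ y
    have h4 : θ * y / x ∈ ℚ⟮l⟯ := (ℚ⟮l⟯).div_mem ((ℚ⟮l⟯).mul_mem hθ hY) hX
    rcases sq_eq_sq_iff_eq_or_eq_neg.1 h3 with h5 | h5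
    · have : φ = θ * y / x := by rw [← h5]; field_simp
      rw [this]; exact h4
    · have : φ = -(θ * y / x) := by
        rw [← neg_div, ← h5]; field_simp
      rw [this]; exact (ℚ⟮l⟯).neg_mem h4
  rw [t4]
  exact (ℚ⟮l⟯).neg_mem ((ℚ⟮l⟯).add_mem ((ℚ⟮l⟯).add_mem
    (key _ _ _ _ _ h.p1 h'.p1 k1 s1 t1) (key _ _ _ _ _ h.p2 h'.p2 k2 s2 t2))
    (key _ _ _ _ _ h.p3 h'.p3 k3 s3 t3))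

/-- repulsion -/
theorem repulsion : ∃ C : ℕ, ∀ (a₁ a₂ a₃ e₁ e₂ e₃ ξ η m k x₁ x₂ x₃ y₁ y₂ y₃ : ℤ), a₁ ≠ 0 → a₂ ≠ 0 →
    a₃ ≠ 0 → e₁ ≠ e₂ → e₁ ≠ e₃ → e₂ ≠ e₃ → m ≠ 0 → k ≠ 0 →
    Sol a₁ a₂ a₃ e₁ e₂ e₃ ξ m x₁ x₂ x₃ → Sol a₁ a₂ a₃ e₁ e₂ e₃ η k y₁ y₂ y₃ →
    (C * max (cA a₁ a₂ a₃ e₁ e₂ e₃ m).natAbs (cB a₁ a₂ a₃ e₁ e₂ e₃ m).natAbs) ^
      (10 ^ 12 * 8 ^ 43) < (px a₁ a₂ a₃ e₁ e₂ e₃ ξ m).natAbs →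
    (px a₁ a₂ a₃ e₁ e₂ e₃ η k).natAbs ≤ (C * (px a₁ a₂ a₃ e₁ e₂ e₃ ξ m).natAbs *
      max (cA a₁ a₂ a₃ e₁ e₂ e₃ k).natAbs (cB a₁ a₂ a₃ e₁ e₂ e₃ k).natAbs) ^
      (10 ^ 12 * 8 ^ 43) := by
  obtain ⟨C, hC⟩ := main_b t_RED2 Pool.Agent.W395.HL.lin Pool.Agent.W864.HL.quad
  refine ⟨C, ?_⟩
  intro a₁ a₂ a₃ e₁ e₂ e₃ ξ η m k x₁ x₂ x₃ y₁ y₂ y₃ ha1 ha2 ha3 h12 h13 h23 hm hk h h' hbig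
  obtain ⟨l, hl, hmain⟩ := hC _ _ _ _ (nonsing ha1 ha2 ha3 h12 h13 h23 hm) h.curve hbig
  have := hmain _ _ _ _ (nonsing ha1 ha2 ha3 h12 h13 h23 hk) h'.curve (fun l' hl' =>
    roots_mem ha1 ha2 ha3 h12 h13 h23 hm hk h h' hl hl')
  exact (le_max_left _ _).trans this

end Pool.Agent.H49SH
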