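import Pool.Agent.H49SH.CntB
import Pool.Agent.W75.PL.DIV

/-!
# The choice of the parameters
-/

set_option autoImplicit false

open Polynomial

namespace Pool.Agent.H49SH

open Finset

lemma natlog_le (n : ℕ) (hn : 1 ≤ n) : (Nat.log 2 n : ℝ) ≤ 2 * Real.log n := by
  have h1 : (2 : ℝ) ^ (Nat.log 2 n) ≤ n := by
    have := Nat.pow_log_le_self 2 (by omega : n ≠ 0)
    exact_mod_cast this
  have h2 := Real.log_le_log (by positivity) h1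
  rw [Real.log_pow] at h2
  have h3 := Real.log_two_gt_d9
  have h4 : (0 : ℝ) ≤ (Nat.log 2 n : ℝ) := Nat.cast_nonneg _
  nlinarith

lemma rpow_mono' {N α β : ℝ} (hN : 1 ≤ N) (h : α ≤ β) : N ^ α ≤ N ^ β :=
  Real.rpow_le_rpow_of_exponent_le hN h

/-- the logarithm of the size of the points -/
theorem log_bound (K κ : ℕ) (hK : 1 ≤ K) (δ : ℝ) (hδ : 0 < δ) : ∃ C : ℝ, 0 ≤ C ∧
    ∀ N B : ℕ, 1 ≤ N → B ≤ (K * N) ^ κ → ((Nat.log 2 B + 1 : ℕ) : ℝ) ≤ C * (N : ℝ) ^ δ := by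
  have hK1 : (1 : ℝ) ≤ K := by exact_mod_cast hK
  have hlK : 0 ≤ Real.log K := Real.log_nonneg hK1
  refine ⟨1 + 2 * (κ * (Real.log K + 1 / δ)), by positivity, ?_⟩
  intro N B hN hB
  have hN1 : (1 : ℝ) ≤ N := by exact_mod_cast hN
  have hNδ : 1 ≤ (N : ℝ) ^ δ := Real.one_le_rpow hN1 hδ.le
  push_cast
  rcases Nat.eq_zero_or_pos B with h0 | h0
  · rw [h0, Nat.log_zero_right, Nat.cast_zero, zero_add]
    have : 0 ≤ 2 * (κ * (Real.log K + 1 / δ)) * (N : ℝ) ^ δ := by positivity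
    linarith
  · have h1 := natlog_le B h0
    have h2 : Real.log B ≤ κ * (Real.log K + Real.log N) := by
      have h3 : (B : ℝ) ≤ ((K : ℝ) * N) ^ κ := by exact_mod_cast hB
      have h4 := Real.log_le_log (by exact_mod_cast h0) h3
      rw [Real.log_pow, Real.log_mul (by positivity) (by positivity)] at h4
      exact h4
    have h5 : Real.log N ≤ (N : ℝ) ^ δ / δ := Real.log_le_rpow_div (by linarith) hδ
    have h6 : Real.log K + Real.log N ≤ (Real.log K + 1 / δ) * (N : ℝ) ^ δ := by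
      have : Real.log K ≤ Real.log K * (N : ℝ) ^ δ := by nlinarith
      calc Real.log K + Real.log N ≤ Real.log K * (N : ℝ) ^ δ + (N : ℝ) ^ δ / δ := by linarith
        _ = _ := by ring
    have h7 : (κ : ℝ) * (Real.log K + Real.log N) ≤ κ * ((Real.log K + 1 / δ) * (N : ℝ) ^ δ) :=
      mul_le_mul_of_nonneg_left h6 (Nat.cast_nonneg _)
    linarith

theorem main_int {f : ℤ[X]} (hf : Odd f.natDegree) {e : Fin 4 → ℤ} (he : Function.Injective e)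
    (hroot : ∀ i, f.eval (e i) = 0) (hsimple : ∀ i, f.derivative.eval (e i) ≠ 0) (ε : ℝ)
    (hε : 0 < ε) : ∃ C : ℝ, 0 ≤ C ∧ ∀ N : ℕ, 1 ≤ N → ∀ S : Finset ℤ, (∀ D ∈ S, Squarefree D ∧
      D.natAbs ≤ N ∧ ∃ x y : ℤ, y ≠ 0 ∧ y ^ 2 = hom f x D) →
      (S.card : ℝ) ≤ C * (N : ℝ) ^ ((5 : ℝ) / 6 + ε) := by
  classical
  obtain ⟨Δ, hΔ, hdat⟩ := exists_dat hf he hroot hsimple
  obtain ⟨C₀, κ, hC₀, hlc⟩ := large_count
  obtain ⟨E, hE⟩ : ∃ E : ℕ, ∀ i, (e i).natAbs ≤ E :=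
    ⟨∑ i, (e i).natAbs, fun i => single_le_sum (f := fun i => (e i).natAbs)
      (fun j _ => Nat.zero_le _) (mem_univ i)⟩
  obtain ⟨δ, hδ⟩ : ∃ δ : ℝ, δ = ε / 5 := ⟨_, rfl⟩
  have hδ0 : 0 < δ := by rw [hδ]; positivity
  obtain ⟨C₁, hC₁, hdiv⟩ := Pool.Agent.W75.PL.DIV.t δ hδ0
  obtain ⟨K, hK⟩ : ∃ K, K = 2 * (C₀ * (Δ * (E + 1)) + E + 1) := ⟨_, rfl⟩
  obtain ⟨C₂, hC₂, hlog⟩ := log_bound K (κ + 1) (by omega) δ hδ0
  obtain ⟨P, hP⟩ : ∃ P : ℝ, P = C₁ * (Δ : ℝ) ^ δ := ⟨_, rfl⟩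
  have hΔ1 : (1 : ℝ) ≤ Δ := by exact_mod_cast hΔ
  have hP0 : 0 ≤ P := by rw [hP]; positivity
  refine ⟨4 * (Δ : ℝ) ^ ((3 : ℝ) / 4) * (2 * P) ^ 3 * 344 +
    32 * P ^ 3 * √(Δ : ℝ) * (C₂ * ((2 * E) ^ 2 + 1)) ^ 2 +
    2 * (2 * P) ^ 3 * (37 * (E + 1) * √(Δ : ℝ) * (2 * C₂ ^ 2)), by positivity, ?_⟩
  intro N hN S hS
  have hN1 : (1 : ℝ) ≤ N := by exact_mod_cast hN
  have hN0 : (0 : ℝ) < N := by linarith
  have hdat' : ∀ D : ℤ, ∃ (g : ℕ) (ξ m : ℤ) (a : Fin 4 → ℤ) (x' : Fin 4 → ℕ), D ∈ S →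
      Dat f e Δ D g ξ m a x' := by
    intro D
    by_cases hD : D ∈ S
    · obtain ⟨h1, -, x, y, h2, h3⟩ := hS D hD
      obtain ⟨g, ξ, m, a, x', h4⟩ := hdat D x y h1 h2 h3
      exact ⟨g, ξ, m, a, x', fun _ => h4⟩
    · exact ⟨0, 0, 0, 0, 0, fun h => absurd h hD⟩
  choose g ξ m a x hd using hdat'
  have hfam : Fam f e Δ N S g ξ m a x :=
    ⟨fun D hD => (hS D hD).1, fun D hD => (hS D hD).2.1, fun D hD => hd D hD⟩
  -- the parameters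
  obtain ⟨R, hR⟩ : ∃ R, R = Δ * N * (E + 1) := ⟨_, rfl⟩
  obtain ⟨L, hL⟩ : ∃ L, L = (C₀ * R) ^ κ := ⟨_, rfl⟩
  obtain ⟨B, hB⟩ : ∃ B, B = L + E * N := ⟨_, rfl⟩
  obtain ⟨T, hT⟩ : ∃ T : ℕ, T = ⌊C₁ * ((Δ * N : ℕ) : ℝ) ^ δ⌋₊ := ⟨_, rfl⟩
  obtain ⟨M, hM⟩ : ∃ M : ℕ, M = ⌊(N : ℝ) ^ ((2 : ℝ) / 3)⌋₊ := ⟨_, rfl⟩
  obtain ⟨Q, hQ⟩ : ∃ Q : ℕ, Q = ⌊((Δ * N : ℕ) : ℝ) ^ ((3 : ℝ) / 4)⌋₊ := ⟨_, rfl⟩
  have hΔN : 1 ≤ Δ * N := Nat.mul_pos hΔ hN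
  have hΔN1 : (1 : ℝ) ≤ ((Δ * N : ℕ) : ℝ) := by exact_mod_cast hΔN
  have hRle : Δ * N ≤ R := by rw [hR]; exact Nat.le_mul_of_pos_right _ (by omega)
  have hR1 : 1 ≤ R := hΔN.trans hRle
  have hTd : ∀ k : ℕ, 1 ≤ k → k ≤ Δ * N → k.divisors.card ≤ T := by
    intro k hk hk2
    rw [hT]
    apply Nat.le_floor
    refine (hdiv k hk).trans ?_
    have : (k : ℝ) ≤ ((Δ * N : ℕ) : ℝ) := by exact_mod_cast hk2
    gcongr
  have hTP : (T : ℝ) ≤ P * (N : ℝ) ^ δ := by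
    rw [hT]
    refine (Nat.floor_le (by positivity)).trans (le_of_eq ?_)
    rw [hP]
    push_cast
    rw [Real.mul_rpow (by positivity) (by positivity)]
    ring
  have hMle : (M : ℝ) ≤ (N : ℝ) ^ ((2 : ℝ) / 3) := by rw [hM]; exact Nat.floor_le (by positivity)
  have hM1' : (1 : ℝ) ≤ (N : ℝ) ^ ((2 : ℝ) / 3) := Real.one_le_rpow hN1 (by norm_num)
  have hM1 : 1 ≤ M := by rw [hM]; exact Nat.le_floor (by exact_mod_cast hM1')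
  have hMge : (N : ℝ) ^ ((2 : ℝ) / 3) ≤ 2 * M := by
    have h1 := Nat.lt_floor_add_one ((N : ℝ) ^ ((2 : ℝ) / 3))
    rw [← hM] at h1
    have h2 : (1 : ℝ) ≤ M := by exact_mod_cast hM1
    linarith
  have hQle : (Q : ℝ) ≤ ((Δ * N : ℕ) : ℝ) ^ ((3 : ℝ) / 4) := by
    rw [hQ]; exact Nat.floor_le (by positivity)
  have hQ1 : Q ≤ Δ * N := by
    have h1 : ((Δ * N : ℕ) : ℝ) ^ ((3 : ℝ) / 4) ≤ ((Δ * N : ℕ) : ℝ) := by
      calc ((Δ * N : ℕ) : ℝ) ^ ((3 : ℝ) / 4) ≤ ((Δ * N : ℕ) : ℝ) ^ (1 : ℝ) :=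
            rpow_mono' hΔN1 (by norm_num)
        _ = _ := Real.rpow_one _
    exact_mod_cast hQle.trans h1
  have hQQ : ∀ n : ℕ, n ^ 4 ≤ (Δ * N) ^ 3 → n ≤ Q := by
    intro n hn
    rw [hQ]
    apply Nat.le_floor
    have h1 : (n : ℝ) ^ 4 ≤ ((Δ * N : ℕ) : ℝ) ^ 3 := by exact_mod_cast hn
    have h2 : ((n : ℝ) ^ 4) ^ ((1 : ℝ) / 4) ≤ (((Δ * N : ℕ) : ℝ) ^ 3) ^ ((1 : ℝ) / 4) :=
      Real.rpow_le_rpow (by positivity) h1 (by norm_num)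
    rw [← Real.rpow_natCast, ← Real.rpow_natCast, ← Real.rpow_mul (by positivity),
      ← Real.rpow_mul (by positivity)] at h2
    norm_num at h2 ⊢
    exact h2
  have hBlog : ((Nat.log 2 B + 1 : ℕ) : ℝ) ≤ C₂ * (N : ℝ) ^ δ := by
    apply hlog N B hN
    have h1 : C₀ * R ≤ K * N := by
      rw [hR, hK]
      calc C₀ * (Δ * N * (E + 1)) = (C₀ * (Δ * (E + 1))) * N := by ring
        _ ≤ _ := Nat.mul_le_mul_right _ (by omega)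
    have hKN : 1 ≤ K * N := Nat.mul_pos (by omega) hN
    have h2 : L ≤ (C₀ * (Δ * (E + 1)) * N) ^ κ := by
      rw [hL, hR]
      apply le_of_eq
      ring
    obtain ⟨J, hJ⟩ : ∃ J, J = C₀ * (Δ * (E + 1)) + E + 1 := ⟨_, rfl⟩
    have hJ1 : 1 ≤ J * N := Nat.mul_pos (by omega) hN
    have hzJ : C₀ * (Δ * (E + 1)) ≤ J := by
      rw [hJ]
      generalize C₀ * (Δ * (E + 1)) = z
      omega
    have h3 : L ≤ (J * N) ^ (κ + 1) := by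
      refine h2.trans ((Nat.pow_le_pow_left (Nat.mul_le_mul_right N hzJ) κ).trans ?_)
      exact Nat.pow_le_pow_right hJ1 (by omega)
    have h4 : E * N ≤ (J * N) ^ (κ + 1) := by
      have hEJ : E ≤ J := by
        rw [hJ]
        generalize C₀ * (Δ * (E + 1)) = z
        omega
      calc E * N ≤ J * N := Nat.mul_le_mul_right _ hEJ
        _ ≤ _ := Nat.le_self_pow (by omega) _
    rw [hB, hK, ← hJ]
    calc L + E * N ≤ (J * N) ^ (κ + 1) + (J * N) ^ (κ + 1) := Nat.add_le_add h3 h4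
      _ = 2 * (J * N) ^ (κ + 1) := by ring
      _ ≤ 2 ^ (κ + 1) * (J * N) ^ (κ + 1) :=
          Nat.mul_le_mul_right _ (Nat.le_self_pow (by omega) 2)
      _ = (2 * J * N) ^ (κ + 1) := by rw [← mul_pow, mul_assoc]
  -- the three families
  obtain ⟨SA, hSA⟩ : ∃ SA, SA = S.filter fun D => L < (ξ D).natAbs := ⟨_, rfl⟩
  obtain ⟨SB, hSB⟩ : ∃ SB, SB = S.filter fun D => ¬ L < (ξ D).natAbs ∧ (m D).natAbs ≤ M := ⟨_, rfl⟩
  obtain ⟨SC, hSC⟩ : ∃ SC, SC = S.filter fun D => ¬ L < (ξ D).natAbs ∧ ¬ (m D).natAbs ≤ M := ⟨_, rfl⟩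
  have hsub : S ⊆ SA ∪ SB ∪ SC := by
    intro D hD
    rw [mem_union, mem_union, hSA, hSB, hSC, mem_filter, mem_filter, mem_filter]
    tauto
  have hcard : (S.card : ℝ) ≤ SA.card + SB.card + SC.card := by
    have := (card_le_card hsub).trans ((card_union_le _ _).trans
      (Nat.add_le_add_right (card_union_le _ _) _))
    exact_mod_cast this
  have hsA : SA ⊆ S := by rw [hSA]; exact filter_subset _ _
  have hsB : SB ⊆ S := by rw [hSB]; exact filter_subset _ _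
  have hsC : SC ⊆ S := by rw [hSC]; exact filter_subset _ _
  have hA := famA (hfam.sub hsA) hΔ (R := R) (Q := Q) hR1 hRle (fun i => by
      refine (hE i).trans ?_
      rw [hR]
      calc E ≤ 1 * (E + 1) := by omega
        _ ≤ Δ * N * (E + 1) := Nat.mul_le_mul_right _ hΔN) he hQQ (L := L)
    (by
      intro a₁ a₂ a₃ e₁ e₂ e₃ h1 h2 h3 h4 h5 h6 h7 h8 h9 h10 h11 h12
      rw [hL]
      exact hlc R a₁ a₂ a₃ e₁ e₂ e₃ hR1 h1 h2 h3 h4 h5 h6 h7 h8 h9 h10 h11 h12)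
    (by
      intro D hD
      rw [hSA, mem_filter] at hD
      exact hD.2)
  have hxB : ∀ D ∈ S, ¬ L < (ξ D).natAbs → ∀ i, x D i ≤ B := by
    intro D hD h1 i
    rw [hB]
    exact hfam.xle hE hD (not_lt.1 h1) i
  have hBB := famB (hfam.sub hsB) hΔ (B := B) (M := M) (T := T) hE he
    (by
      intro D hD
      rw [hSB, mem_filter] at hD
      exact hxB D hD.1 hD.2.1)
    (by
      intro D hD
      rw [hSB, mem_filter] at hD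
      exact hD.2.2) hTd
  have hCC := famC (hfam.sub hsC) hΔ hN (B := B) (G := N / M) hE he
    (by
      intro D hD
      rw [hSC, mem_filter] at hD
      exact hxB D hD.1 hD.2.1)
    (by
      intro D hD
      rw [hSC, mem_filter] at hD
      obtain ⟨h1, h2, h3⟩ := hD
      rw [Nat.le_div_iff_mul_le hM1]
      exact (Nat.mul_le_mul_left _ (not_le.1 h3).le).trans (hfam.gm h1))
  -- the estimates
  have hNδ0 : 0 < (N : ℝ) ^ δ := by positivity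
  have hfin : (N : ℝ) ^ ((5 : ℝ) / 6) * ((N : ℝ) ^ δ) ^ 5 = (N : ℝ) ^ ((5 : ℝ) / 6 + ε) := by
    rw [← Real.rpow_natCast ((N : ℝ) ^ δ), ← Real.rpow_mul hN0.le, ← Real.rpow_add hN0, hδ]
    congr 1
    push_cast
    ring
  have hNδ1 : 1 ≤ (N : ℝ) ^ δ := Real.one_le_rpow hN1 hδ0.le
  have hΔNr : ((Δ * N : ℕ) : ℝ) = Δ * N := by push_cast; ring
  have sqN : √((Δ * N : ℕ) : ℝ) = √(Δ : ℝ) * (N : ℝ) ^ ((1 : ℝ) / 2) := by
    rw [hΔNr, Real.sqrt_mul (by positivity), Real.sqrt_eq_rpow (N : ℝ)]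
  have eA : (SA.card : ℝ) ≤ 4 * (Δ : ℝ) ^ ((3 : ℝ) / 4) * (2 * P) ^ 3 * 344 *
      (N : ℝ) ^ ((5 : ℝ) / 6 + ε) := by
    have h1 : ((TA Q).card : ℝ) ≤ 4 * (Q * (2 * T) ^ 3) := by
      have := card_TA (Q := Q) (T := T) (fun k hk hk2 => hTd k hk (hk2.trans hQ1))
      exact_mod_cast this
    calc (SA.card : ℝ) ≤ (TA Q).card * 344 := hA
      _ ≤ (4 * (Q * (2 * T) ^ 3)) * 344 := by gcongr
      _ ≤ (4 * ((Δ : ℝ) ^ ((3 : ℝ) / 4) * (N : ℝ) ^ ((3 : ℝ) / 4) *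
          (2 * (P * (N : ℝ) ^ δ)) ^ 3)) * 344 := by
          rw [hΔNr, Real.mul_rpow (by positivity) (by positivity)] at hQle
          gcongr
      _ = 4 * (Δ : ℝ) ^ ((3 : ℝ) / 4) * (2 * P) ^ 3 * 344 *
          ((N : ℝ) ^ ((3 : ℝ) / 4) * ((N : ℝ) ^ δ) ^ 3) := by ring
      _ ≤ 4 * (Δ : ℝ) ^ ((3 : ℝ) / 4) * (2 * P) ^ 3 * 344 *
          ((N : ℝ) ^ ((5 : ℝ) / 6) * ((N : ℝ) ^ δ) ^ 5) := by
          have h2 : (N : ℝ) ^ ((3 : ℝ) / 4) ≤ (N : ℝ) ^ ((5 : ℝ) / 6) :=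
            rpow_mono' hN1 (by norm_num)
          have h3 : ((N : ℝ) ^ δ) ^ 3 ≤ ((N : ℝ) ^ δ) ^ 5 := pow_le_pow_right₀ hNδ1 (by norm_num)
          gcongr
      _ = _ := by rw [hfin]
  have eB : (SB.card : ℝ) ≤ 32 * P ^ 3 * √(Δ : ℝ) * (C₂ * ((2 * E) ^ 2 + 1)) ^ 2 *
      (N : ℝ) ^ ((5 : ℝ) / 6 + ε) := by
    have h1 := card_TB (M := M) hTd
    have h2 : √(M : ℝ) ≤ (N : ℝ) ^ ((1 : ℝ) / 3) := by
      rw [Real.sqrt_eq_rpow]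
      calc (M : ℝ) ^ ((1 : ℝ) / 2) ≤ ((N : ℝ) ^ ((2 : ℝ) / 3)) ^ ((1 : ℝ) / 2) := by gcongr
        _ = _ := by rw [← Real.rpow_mul hN0.le]; norm_num
    calc (SB.card : ℝ) ≤ (TB M (Δ * N)).card *
          (T * ((Nat.log 2 B + 1) * ((2 * E : ℕ) ^ 2 + 1)) ^ 2 : ℕ) := hBB
      _ = (TB M (Δ * N)).card *
          (T * (((Nat.log 2 B + 1 : ℕ) : ℝ) * ((2 * (E : ℝ)) ^ 2 + 1)) ^ 2) := by push_cast; ring
      _ ≤ (32 * T ^ 2 * (√((Δ * N : ℕ) : ℝ) * √(M : ℝ))) *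
          (T * (((Nat.log 2 B + 1 : ℕ) : ℝ) * ((2 * (E : ℝ)) ^ 2 + 1)) ^ 2) := by gcongr
      _ ≤ (32 * (P * (N : ℝ) ^ δ) ^ 2 * ((√(Δ : ℝ) * (N : ℝ) ^ ((1 : ℝ) / 2)) *
          (N : ℝ) ^ ((1 : ℝ) / 3))) *
          ((P * (N : ℝ) ^ δ) * ((C₂ * (N : ℝ) ^ δ) * ((2 * (E : ℝ)) ^ 2 + 1)) ^ 2) := by
          rw [sqN]
          gcongr
      _ = 32 * P ^ 3 * √(Δ : ℝ) * (C₂ * ((2 * E) ^ 2 + 1)) ^ 2 *
          (((N : ℝ) ^ ((1 : ℝ) / 2) * (N : ℝ) ^ ((1 : ℝ) / 3)) * ((N : ℝ) ^ δ) ^ 5) := by ring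
      _ = _ := by
          rw [← Real.rpow_add hN0, ← hfin]
          norm_num
  have eC : (SC.card : ℝ) ≤ 2 * (2 * P) ^ 3 * (37 * (E + 1) * √(Δ : ℝ) * (2 * C₂ ^ 2)) *
      (N : ℝ) ^ ((5 : ℝ) / 6 + ε) := by
    have h1 : ((TC (N / M) Δ).card : ℝ) ≤ ((N / M : ℕ) : ℝ) * (2 * T) ^ 3 := by
      have := card_TC (G := N / M) (T := T) hΔ (Nat.mul_le_mul_left _ (Nat.div_le_self _ _)) hTd
      exact_mod_cast this
    have h2 : ((N / M : ℕ) : ℝ) ≤ 2 * (N : ℝ) ^ ((1 : ℝ) / 3) := by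
      refine Nat.cast_div_le.trans ?_
      have hM0 : (0 : ℝ) < M := by exact_mod_cast hM1
      rw [div_le_iff₀ hM0]
      have h3 : (N : ℝ) = (N : ℝ) ^ ((1 : ℝ) / 3) * (N : ℝ) ^ ((2 : ℝ) / 3) := by
        rw [← Real.rpow_add hN0]
        norm_num
      calc (N : ℝ) = (N : ℝ) ^ ((1 : ℝ) / 3) * (N : ℝ) ^ ((2 : ℝ) / 3) := h3
        _ ≤ (N : ℝ) ^ ((1 : ℝ) / 3) * (2 * M) := by gcongr
        _ = _ := by ring
    calc (SC.card : ℝ) ≤ (TC (N / M) Δ).card *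
          (37 * (E + 1) * √((Δ * N : ℕ) : ℝ) * (2 * ((Nat.log 2 B + 1 : ℕ) : ℝ) ^ 2)) := hCC
      _ ≤ (((N / M : ℕ) : ℝ) * (2 * T) ^ 3) *
          (37 * (E + 1) * √((Δ * N : ℕ) : ℝ) * (2 * ((Nat.log 2 B + 1 : ℕ) : ℝ) ^ 2)) := by gcongr
      _ ≤ ((2 * (N : ℝ) ^ ((1 : ℝ) / 3)) * (2 * (P * (N : ℝ) ^ δ)) ^ 3) *
          (37 * (E + 1) * (√(Δ : ℝ) * (N : ℝ) ^ ((1 : ℝ) / 2)) * (2 * (C₂ * (N : ℝ) ^ δ) ^ 2)) := by
          rw [sqN]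
          gcongr
      _ = 2 * (2 * P) ^ 3 * (37 * (E + 1) * √(Δ : ℝ) * (2 * C₂ ^ 2)) *
          (((N : ℝ) ^ ((1 : ℝ) / 2) * (N : ℝ) ^ ((1 : ℝ) / 3)) * ((N : ℝ) ^ δ) ^ 5) := by ring
      _ = _ := by
          rw [← Real.rpow_add hN0, ← hfin]
          norm_num
  calc (S.card : ℝ) ≤ SA.card + SB.card + SC.card := hcard
    _ ≤ _ := add_le_add (add_le_add eA eB) eC
    _ = _ := by ring

end Pool.Agent.H49SH
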