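import Pool.Agent.H49TW.CntB

/-!
# The gap principle for the points on the conics `a₁ x₁² + e₁ m = a₂ x₂² + e₂ m = a₃ x₃² + e₃ m = ξ`
-/

set_option autoImplicit false

namespace Pool.Agent.H49SH

open Pool.Agent.H49TW

/-- `ξ - e_i m = a_i x_i ^ 2` for three indices -/
structure Sol (a₁ a₂ a₃ e₁ e₂ e₃ ξ m x₁ x₂ x₃ : ℤ) : Prop where
  p1 : 0 < x₁
  p2 : 0 < x₂
  p3 : 0 < x₃
  h1 : ξ - e₁ * m = a₁ * x₁ ^ 2
  h2 : ξ - e₂ * m = a₂ * x₂ ^ 2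
  h3 : ξ - e₃ * m = a₃ * x₃ ^ 2

variable {a₁ a₂ a₃ e₁ e₂ e₃ ξ η m k x₁ x₂ x₃ y₁ y₂ y₃ : ℤ}

theorem Sol.pnt (h : Sol a₁ a₂ a₃ e₁ e₂ e₃ ξ m x₁ x₂ x₃) : Pnt a₁ a₂ a₃ e₁ e₂ e₃ m x₁ x₂ x₃ :=
  ⟨h.p1, h.p2, h.p3, by rw [← h.h1, ← h.h2]; ring, by rw [← h.h1, ← h.h3]; ring⟩

theorem Sol.swap (h : Sol a₁ a₂ a₃ e₁ e₂ e₃ ξ m x₁ x₂ x₃) : Sol a₁ a₃ a₂ e₁ e₃ e₂ ξ m x₁ x₃ x₂ :=
  ⟨h.p1, h.p3, h.p2, h.h1, h.h3, h.h2⟩

/-- the bilinear form of the conic does not vanish -/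
theorem bil_ne' (ha2 : a₂ ≠ 0) (ha1 : a₁ ≠ 0) (h12 : e₁ ≠ e₂)
    (h13 : e₁ ≠ e₃) (h23 : e₂ ≠ e₃) (hm : IsCoprime ξ m) (hm' : IsCoprime η k)
    (hne : (ξ, m) ≠ (η, k))
    (h : Sol a₁ a₂ a₃ e₁ e₂ e₃ ξ m x₁ x₂ x₃) (h' : Sol a₁ a₂ a₃ e₁ e₂ e₃ η k y₁ y₂ y₃) :
    a₁ * (e₂ - e₃) * (x₁ * y₁) + a₂ * (e₃ - e₁) * (x₂ * y₂) + a₃ * (e₁ - e₂) * (x₃ * y₃) ≠ 0 := by
  intro h0
  have q := h.pnt.quad
  have q' := h'.pnt.quad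
  have h1 : (a₁ * (e₂ - e₃)) * (a₂ * (e₃ - e₁)) * (x₁ * y₂ - x₂ * y₁) ^ 2 = 0 := by
    linear_combination (a₁ * (e₂ - e₃) * y₁ ^ 2 + a₂ * (e₃ - e₁) * y₂ ^ 2) * q -
      (a₃ * (e₁ - e₂) * x₃ ^ 2) * q' -
      (a₁ * (e₂ - e₃) * (x₁ * y₁) + a₂ * (e₃ - e₁) * (x₂ * y₂) - a₃ * (e₁ - e₂) * (x₃ * y₃)) * h0
  have hA1 : a₁ * (e₂ - e₃) ≠ 0 := mul_ne_zero ha1 (sub_ne_zero.2 h23)
  have hA2 : a₂ * (e₃ - e₁) ≠ 0 := mul_ne_zero ha2 (sub_ne_zero.2 h13.symm)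
  have h2 : x₁ * y₂ - x₂ * y₁ = 0 := by
    rcases mul_eq_zero.1 h1 with h3 | h3
    · exact absurd h3 (mul_ne_zero hA1 hA2)
    · exact pow_eq_zero_iff (two_ne_zero) |>.1 h3
  obtain ⟨p1, p2, p3, i1, i2, i3⟩ := h
  obtain ⟨p1', p2', p3', i1', i2', i3'⟩ := h'
  have h3 : (e₂ - e₁) * (m * y₁ ^ 2 - k * x₁ ^ 2) = 0 := by
    linear_combination (y₁ ^ 2) * i1 - y₁ ^ 2 * i2 - x₁ ^ 2 * i1' + x₁ ^ 2 * i2' +
      a₂ * (x₁ * y₂ + x₂ * y₁) * h2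
  have h4 : m * y₁ ^ 2 = k * x₁ ^ 2 := by
    have := (mul_eq_zero.1 h3).resolve_left (sub_ne_zero.2 h12.symm)
    linarith
  have h5 : ξ * y₁ ^ 2 = η * x₁ ^ 2 := by
    linear_combination y₁ ^ 2 * i1 - x₁ ^ 2 * i1' + e₁ * h4
  have d1 : x₁ ^ 2 ∣ y₁ ^ 2 := by
    obtain ⟨u, v, huv⟩ := hm
    refine ⟨u * η + v * k, ?_⟩
    linear_combination (-(y₁ ^ 2)) * huv + u * h5 + v * h4
  have d2 : y₁ ^ 2 ∣ x₁ ^ 2 := by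
    obtain ⟨u, v, huv⟩ := hm'
    refine ⟨u * ξ + v * m, ?_⟩
    linear_combination (-(x₁ ^ 2)) * huv - u * h5 - v * h4
  have h6 : x₁ ^ 2 = y₁ ^ 2 := Int.dvd_antisymm (by positivity) (by positivity) d1 d2
  have hp : x₁ ^ 2 ≠ 0 := pow_ne_zero 2 p1.ne'
  rw [← h6] at h4 h5
  exact hne (Prod.ext (mul_right_cancel₀ hp h5) (mul_right_cancel₀ hp h4))

/-- separation of the points -/
theorem sep' (ha1 : a₁ ≠ 0) (ha2 : a₂ ≠ 0) (ha3 : a₃ ≠ 0) (h12 : e₁ ≠ e₂)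
    (h13 : e₁ ≠ e₃) (h23 : e₂ ≠ e₃) (hm : IsCoprime ξ m) (hm' : IsCoprime η k)
    (hne : (ξ, m) ≠ (η, k))
    (h : Sol a₁ a₂ a₃ e₁ e₂ e₃ ξ m x₁ x₂ x₃) (h' : Sol a₁ a₂ a₃ e₁ e₂ e₃ η k y₁ y₂ y₃)
    (hc : |a₂ * (e₃ - e₁)| * x₂ ≤ |a₃ * (e₁ - e₂)| * x₃)
    (hc' : |a₂ * (e₃ - e₁)| * y₂ ≤ |a₃ * (e₁ - e₂)| * y₃) :
    2 * (x₁ * y₁) ≤ (|a₂ * (e₃ - e₁)| + |a₃ * (e₁ - e₂)|) * (x₂ * y₁ - y₂ * x₁) ^ 2 := by
  have hb := bil_ne' ha2 ha1 h12 h13 h23 hm hm' hne h h'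
  have q := h.pnt.quad
  have q' := h'.pnt.quad
  obtain ⟨p1, p2, p3, i1, i2, i3⟩ := h
  obtain ⟨p1', p2', p3', i1', i2', i3'⟩ := h'
  have hA3 : a₃ * (e₁ - e₂) ≠ 0 := mul_ne_zero ha3 (sub_ne_zero.2 h12)
  obtain ⟨A, hA⟩ : ∃ A, A = a₁ * (e₂ - e₃) := ⟨_, rfl⟩
  obtain ⟨P, hP⟩ : ∃ P, P = a₂ * (e₃ - e₁) := ⟨_, rfl⟩
  obtain ⟨Q, hQ⟩ : ∃ Q, Q = a₃ * (e₁ - e₂) := ⟨_, rfl⟩
  rw [← hP, ← hQ] at hc hc' ⊢
  rw [← hA, ← hP, ← hQ] at hb q q'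
  rw [← hQ] at hA3
  obtain ⟨V, hV⟩ : ∃ V, V = x₂ * y₁ - y₂ * x₁ := ⟨_, rfl⟩
  obtain ⟨U, hU⟩ : ∃ U, U = x₃ * y₁ - y₃ * x₁ := ⟨_, rfl⟩
  obtain ⟨W, hW⟩ : ∃ W, W = x₂ * y₁ + y₂ * x₁ := ⟨_, rfl⟩
  obtain ⟨Z, hZ⟩ : ∃ Z, Z = x₃ * y₁ + y₃ * x₁ := ⟨_, rfl⟩
  have hWp : 0 < W := by rw [hW]; positivity
  have hZp : 0 < Z := by rw [hZ]; positivity
  have e1 : P * (V * W) + Q * (U * Z) = 0 := by
    rw [hV, hU, hW, hZ]; linear_combination y₁ ^ 2 * q - x₁ ^ 2 * q'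
  have hPW : |P| * W ≤ |Q| * Z := by
    rw [hW, hZ]
    nlinarith
  have hUV : |U| ≤ |V| := by
    have e2 : |P| * (|V| * W) = |Q| * (|U| * Z) := by
      have : P * (V * W) = -(Q * (U * Z)) := by linarith
      have h1 := congrArg abs this
      rw [abs_neg, abs_mul, abs_mul, abs_mul, abs_mul, abs_of_pos hWp, abs_of_pos hZp] at h1
      exact h1
    by_contra hlt
    push Not at hlt
    have hQp : 0 < |Q| := abs_pos.2 hA3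
    have h1 : |Q| * (|V| * Z) < |Q| * (|U| * Z) :=
      mul_lt_mul_of_pos_left (mul_lt_mul_of_pos_right hlt hZp) hQp
    have h2 : |P| * (|V| * W) ≤ |Q| * (|V| * Z) := by
      calc |P| * (|V| * W) = |V| * (|P| * W) := by ring
        _ ≤ |V| * (|Q| * Z) := mul_le_mul_of_nonneg_left hPW (abs_nonneg _)
        _ = _ := by ring
    linarith
  obtain ⟨b, hb'⟩ : ∃ b, b = A * (x₁ * y₁) + P * (x₂ * y₂) + Q * (x₃ * y₃) := ⟨_, rfl⟩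
  rw [← hb'] at hb
  have e3 : 2 * b * (x₁ * y₁) = -(P * V ^ 2 + Q * U ^ 2) := by
    rw [hb', hV, hU]
    linear_combination y₁ ^ 2 * q + x₁ ^ 2 * q'
  have h1 : 2 * (x₁ * y₁) ≤ |2 * b * (x₁ * y₁)| := by
    rw [abs_mul, abs_mul, abs_of_pos (mul_pos p1 p1'), abs_two]
    have : 1 ≤ |b| := Int.one_le_abs hb
    have hp : 0 < x₁ * y₁ := mul_pos p1 p1'
    nlinarith
  have h2 : |2 * b * (x₁ * y₁)| ≤ |P| * V ^ 2 + |Q| * U ^ 2 := by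
    rw [e3, abs_neg]
    refine (abs_add_le _ _).trans ?_
    rw [abs_mul, abs_mul, abs_of_nonneg (sq_nonneg V), abs_of_nonneg (sq_nonneg U)]
  have h3 : U ^ 2 ≤ V ^ 2 := sq_le_sq.2 hUV
  have h4 : |Q| * U ^ 2 ≤ |Q| * V ^ 2 := mul_le_mul_of_nonneg_left h3 (abs_nonneg _)
  rw [← hV]
  linarith

/-- `|ξ - e m|` is not small -/
theorem abs_ge {R e : ℤ} (hR : 1 ≤ R) (he : |e| ≤ R) (hm : |m| ≤ R) (hξ : 2 * R ^ 2 ≤ |ξ|) :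
    |ξ| ≤ 2 * |ξ - e * m| := by
  have h1 : |e * m| ≤ R ^ 2 := by
    rw [abs_mul, sq]
    exact mul_le_mul he hm (abs_nonneg _) (by linarith)
  have h2 : |ξ| ≤ |ξ - e * m| + |e * m| := by
    have := abs_add_le (ξ - e * m) (e * m)
    rw [sub_add_cancel] at this
    exact this
  linarith

/-- a product of two squares in terms of `ξ`, `η` -/
theorem sq_ge {R a a' e e' x y : ℤ} (hR : 1 ≤ R) (ha : |a| ≤ R) (ha' : |a'| ≤ R) (he : |e| ≤ R)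
    (he' : |e'| ≤ R) (hm : |m| ≤ R) (hk : |k| ≤ R) (hξ : 2 * R ^ 2 ≤ |ξ|) (hη : 2 * R ^ 2 ≤ |η|)
    (h : ξ - e * m = a * x ^ 2) (h' : η - e' * k = a' * y ^ 2) :
    |ξ| * |η| ≤ 4 * R ^ 2 * (x ^ 2 * y ^ 2) := by
  have h1 := abs_ge hR he hm hξ
  have h2 := abs_ge hR he' hk hη
  rw [h, abs_mul, abs_of_nonneg (sq_nonneg x)] at h1
  rw [h', abs_mul, abs_of_nonneg (sq_nonneg y)] at h2
  have h3 : |a| * x ^ 2 ≤ R * x ^ 2 := mul_le_mul_of_nonneg_right ha (sq_nonneg _)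
  have h4 : |a'| * y ^ 2 ≤ R * y ^ 2 := mul_le_mul_of_nonneg_right ha' (sq_nonneg _)
  calc |ξ| * |η| ≤ (2 * (R * x ^ 2)) * (2 * (R * y ^ 2)) :=
        mul_le_mul (by linarith) (by linarith) (abs_nonneg _) (by positivity)
    _ = _ := by ring

/-- the gap principle -/
theorem gap {R : ℤ} (hR : 1 ≤ R) (ha1 : a₁ ≠ 0) (ha2 : a₂ ≠ 0) (ha3 : a₃ ≠ 0)
    (b1 : |a₁| ≤ R) (b2 : |a₂| ≤ R) (b3 : |a₃| ≤ R) (c1 : |e₁| ≤ R) (c2 : |e₂| ≤ R) (c3 : |e₃| ≤ R)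
    (h12 : e₁ ≠ e₂) (h13 : e₁ ≠ e₃) (h23 : e₂ ≠ e₃) (hm : IsCoprime ξ m) (hm' : IsCoprime η k)
    (hne : (ξ, m) ≠ (η, k)) (hmR : |m| ≤ R) (hkR : |k| ≤ R)
    (h : Sol a₁ a₂ a₃ e₁ e₂ e₃ ξ m x₁ x₂ x₃) (h' : Sol a₁ a₂ a₃ e₁ e₂ e₃ η k y₁ y₂ y₃)
    (hc : |a₂ * (e₃ - e₁)| * x₂ ≤ |a₃ * (e₁ - e₂)| * x₃)
    (hc' : |a₂ * (e₃ - e₁)| * y₂ ≤ |a₃ * (e₁ - e₂)| * y₃)
    (hle : |ξ| ≤ |η|) (hL : 65536 * R ^ 18 ≤ |ξ|) : |ξ| ^ 2 ≤ |η| := by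
  have hR0 : 0 < R := by linarith
  have hs := sep' ha1 ha2 ha3 h12 h13 h23 hm hm' hne h h' hc hc'
  obtain ⟨V, hV⟩ : ∃ V, V = x₂ * y₁ - y₂ * x₁ := ⟨_, rfl⟩
  rw [← hV] at hs
  have hR2 : 2 * R ^ 2 ≤ |ξ| := by
    refine le_trans ?_ hL
    have h1 : R ^ 2 ≤ R ^ 18 := pow_le_pow_right₀ hR (by norm_num)
    have h2 : 0 < R ^ 2 := by positivity
    linarith
  have hη2 : 2 * R ^ 2 ≤ |η| := hR2.trans hle
  have hξ0 : 0 < |ξ| := by have : 0 < 2 * R ^ 2 := by positivity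
                           linarith
  have hη0 : 0 < |η| := hξ0.trans_le hle
  -- the bound of `V`
  have hWp : 0 < x₂ * y₁ + y₂ * x₁ := by
    have := h.p1; have := h.p2; have := h'.p1; have := h'.p2
    positivity
  have i1 : a₁ * a₂ * (V * (x₂ * y₁ + y₂ * x₁)) = (e₂ - e₁) * (k * ξ - m * η) := by
    rw [hV]
    linear_combination (-(a₁ * y₁ ^ 2)) * h.h2 + (a₁ * x₁ ^ 2) * h'.h2 - (ξ - e₂ * m) * h'.h1 +
      (η - e₂ * k) * h.h1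
  have i2 : |V| * (x₂ * y₁ + y₂ * x₁) ≤ 4 * R ^ 2 * |η| := by
    have j1 : |V| * (x₂ * y₁ + y₂ * x₁) ≤ |a₁ * a₂ * (V * (x₂ * y₁ + y₂ * x₁))| := by
      rw [abs_mul, abs_mul V, abs_of_pos hWp]
      have : 1 ≤ |a₁ * a₂| := Int.one_le_abs (mul_ne_zero ha1 ha2)
      have h0 : 0 ≤ |V| * (x₂ * y₁ + y₂ * x₁) := by positivity
      nlinarith
    refine j1.trans ?_
    rw [i1, abs_mul]
    have j2 : |e₂ - e₁| ≤ 2 * R := (abs_sub _ _).trans (by linarith)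
    have j3 : |k * ξ - m * η| ≤ 2 * R * |η| := by
      refine (abs_sub _ _).trans ?_
      rw [abs_mul, abs_mul]
      have t1 : |k| * |ξ| ≤ R * |η| := mul_le_mul hkR hle (abs_nonneg _) hR0.le
      have t2 : |m| * |η| ≤ R * |η| := mul_le_mul_of_nonneg_right hmR (abs_nonneg _)
      linarith
    calc |e₂ - e₁| * |k * ξ - m * η| ≤ (2 * R) * (2 * R * |η|) :=
          mul_le_mul j2 j3 (abs_nonneg _) (by positivity)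
      _ = _ := by ring
  have i3 : |V| * (x₂ * y₁) ≤ 4 * R ^ 2 * |η| := by
    refine le_trans (mul_le_mul_of_nonneg_left ?_ (abs_nonneg _)) i2
    have := h.p1; have := h'.p2
    have : 0 < y₂ * x₁ := by positivity
    linarith
  have i4 : V ^ 2 * (x₂ ^ 2 * y₁ ^ 2) ≤ 16 * R ^ 4 * |η| ^ 2 := by
    have := h.p2; have := h'.p1
    have h0 : 0 ≤ |V| * (x₂ * y₁) := by positivity
    have := pow_le_pow_left₀ h0 i3 2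
    calc V ^ 2 * (x₂ ^ 2 * y₁ ^ 2) = (|V| * (x₂ * y₁)) ^ 2 := by
          rw [mul_pow, sq_abs, mul_pow]
      _ ≤ (4 * R ^ 2 * |η|) ^ 2 := this
      _ = _ := by ring
  have i5 := sq_ge (x := x₂) (y := y₁) hR b2 b1 c2 c1 hmR hkR hR2 hη2 h.h2 h'.h1
  have i6 : V ^ 2 * |ξ| ≤ 64 * R ^ 6 * |η| := by
    have j1 : V ^ 2 * |ξ| * |η| ≤ 64 * R ^ 6 * |η| * |η| := by
      calc V ^ 2 * |ξ| * |η| = V ^ 2 * (|ξ| * |η|) := by ring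
        _ ≤ V ^ 2 * (4 * R ^ 2 * (x₂ ^ 2 * y₁ ^ 2)) := mul_le_mul_of_nonneg_left i5 (sq_nonneg _)
        _ = 4 * R ^ 2 * (V ^ 2 * (x₂ ^ 2 * y₁ ^ 2)) := by ring
        _ ≤ 4 * R ^ 2 * (16 * R ^ 4 * |η| ^ 2) := mul_le_mul_of_nonneg_left i4 (by positivity)
        _ = _ := by ring
    exact le_of_mul_le_mul_right j1 hη0
  -- the separation
  have i7 : x₁ * y₁ ≤ 2 * R ^ 2 * V ^ 2 := by
    have j1 : |a₂ * (e₃ - e₁)| ≤ R * (2 * R) := by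
      rw [abs_mul]
      exact mul_le_mul b2 ((abs_sub _ _).trans (by linarith)) (abs_nonneg _) hR0.le
    have j2 : |a₃ * (e₁ - e₂)| ≤ R * (2 * R) := by
      rw [abs_mul]
      exact mul_le_mul b3 ((abs_sub _ _).trans (by linarith)) (abs_nonneg _) hR0.le
    have j3 : (|a₂ * (e₃ - e₁)| + |a₃ * (e₁ - e₂)|) * V ^ 2 ≤ (4 * R ^ 2) * V ^ 2 :=
      mul_le_mul_of_nonneg_right (by linarith) (sq_nonneg _)
    linarith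
  have i8 := sq_ge (x := x₁) (y := y₁) hR b1 b1 c1 c1 hmR hkR hR2 hη2 h.h1 h'.h1
  have i9 : |ξ| * |η| ≤ 16 * R ^ 6 * (V ^ 2) ^ 2 := by
    have := h.p1; have := h'.p1
    have j0 : 0 ≤ x₁ * y₁ := by positivity
    have j1 := pow_le_pow_left₀ j0 i7 2
    calc |ξ| * |η| ≤ 4 * R ^ 2 * (x₁ ^ 2 * y₁ ^ 2) := i8
      _ = 4 * R ^ 2 * (x₁ * y₁) ^ 2 := by ring
      _ ≤ 4 * R ^ 2 * (2 * R ^ 2 * V ^ 2) ^ 2 := mul_le_mul_of_nonneg_left j1 (by positivity)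
      _ = _ := by ring
  have i10 : |ξ| ^ 3 ≤ 65536 * R ^ 18 * |η| := by
    have j1 : |ξ| ^ 3 * |η| ≤ 65536 * R ^ 18 * |η| * |η| := by
      calc |ξ| ^ 3 * |η| = |ξ| ^ 2 * (|ξ| * |η|) := by ring
        _ ≤ |ξ| ^ 2 * (16 * R ^ 6 * (V ^ 2) ^ 2) := mul_le_mul_of_nonneg_left i9 (by positivity)
        _ = 16 * R ^ 6 * (V ^ 2 * |ξ|) ^ 2 := by ring
        _ ≤ 16 * R ^ 6 * (64 * R ^ 6 * |η|) ^ 2 :=
          mul_le_mul_of_nonneg_left (pow_le_pow_left₀ (by positivity) i6 2) (by positivity)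
        _ = _ := by ring
    exact le_of_mul_le_mul_right j1 hη0
  have i11 : |ξ| ^ 2 * |ξ| ≤ |η| * |ξ| := by
    calc |ξ| ^ 2 * |ξ| = |ξ| ^ 3 := by ring
      _ ≤ 65536 * R ^ 18 * |η| := i10
      _ ≤ |ξ| * |η| := mul_le_mul_of_nonneg_right hL (abs_nonneg _)
      _ = _ := by ring
  exact le_of_mul_le_mul_right i11 hξ0

/-- a finite set of integers with doubly exponential gaps in a short range -/
theorem card_gap (k : ℕ) : ∀ (b : ℕ) (T : Finset ℕ), 2 ≤ b → (∀ t ∈ T, b ≤ t ∧ t ≤ b ^ 2 ^ k) →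
    (∀ s ∈ T, ∀ t ∈ T, s < t → s ^ 2 ≤ t) → T.card ≤ k + 1 := by
  induction k with
  | zero =>
    intro b T hb hT _
    have : T ⊆ {b} := by
      intro t ht
      have := hT t ht
      rw [pow_zero, pow_one] at this
      rw [Finset.mem_singleton]
      omega
    exact (Finset.card_le_card this).trans (by simp)
  | succ k ih =>
    intro b T hb hT hgap
    rcases T.eq_empty_or_nonempty with h0 | h0
    · rw [h0]; simp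
    have hmin := T.min'_mem h0
    have h1 := ih (b ^ 2) (T.erase (T.min' h0)) (by nlinarith) (by
      intro t ht
      rw [Finset.mem_erase] at ht
      have h2 : T.min' h0 < t := lt_of_le_of_ne (T.min'_le t ht.2) (Ne.symm ht.1)
      have h3 := hgap _ hmin t ht.2 h2
      constructor
      · exact (Nat.pow_le_pow_left (hT _ hmin).1 2).trans h3
      · rw [← pow_mul, ← pow_succ']
        exact (hT t ht.2).2) (by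
      intro s hs t ht hst
      exact hgap s (Finset.mem_of_mem_erase hs) t (Finset.mem_of_mem_erase ht) hst)
    rw [Finset.card_erase_of_mem hmin] at h1
    omega

end Pool.Agent.H49SH
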