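import Pool.Agent.H49SH.Fin

/-!
# The result: rational roots
-/

set_option autoImplicit false

open Polynomial

namespace Pool.Agent.H49SH

theorem hom_eq_sum (f : ℤ[X]) (x z : ℤ) : hom f x z =
    ∑ i ∈ Finset.range (f.natDegree + 1), f.coeff i * z ^ (f.natDegree - i) * x ^ i := by
  unfold hom
  rw [eval_eq_sum_range, natDegree_scaleRoots]
  simp only [coeff_scaleRoots]

/-- clearing the denominators of the roots -/
theorem to_int {f : ℤ[X]} (V : ℕ) (hV : 0 < V) (q : ℚ) (z : ℤ) (hz : (z : ℚ) = V * q)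
    (hr : (f.map (Int.castRingHom ℚ)).eval q = 0)
    (hd : (f.map (Int.castRingHom ℚ)).derivative.eval q ≠ 0) :
    (C (V : ℤ) * f.scaleRoots V).eval z = 0 ∧
      (C (V : ℤ) * f.scaleRoots V).derivative.eval z ≠ 0 := by
  have hV0 : (V : ℚ) ≠ 0 := by exact_mod_cast hV.ne'
  have hmap : (f.scaleRoots (V : ℤ)).map (Int.castRingHom ℚ) =
      (f.map (Int.castRingHom ℚ)).scaleRoots (V : ℚ) := by
    ext i
    rw [coeff_map, coeff_scaleRoots, coeff_scaleRoots, coeff_map,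
      natDegree_map_eq_of_injective (RingHom.injective_int _)]
    simp
  -- the factorisation over `ℚ`
  obtain ⟨p, hp⟩ := dvd_iff_isRoot.2 hr
  have hpq : p.eval q ≠ 0 := by
    intro h0
    apply hd
    rw [hp, derivative_mul]
    simp [h0]
  have hfac : (f.map (Int.castRingHom ℚ)).scaleRoots (V : ℚ) =
      (X - C (q * V)) * p.scaleRoots (V : ℚ) := by
    rw [hp, mul_scaleRoots_of_noZeroDivisors, X_sub_C_scaleRoots]
  have hzV : (z : ℚ) = q * V := by rw [hz, mul_comm]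
  have e1 : (((f.scaleRoots (V : ℤ)).eval z : ℤ) : ℚ) = 0 := by
    have h1 : (((f.scaleRoots (V : ℤ)).eval z : ℤ) : ℚ) =
        ((f.scaleRoots (V : ℤ)).map (Int.castRingHom ℚ)).eval (z : ℚ) := by
      rw [eval_intCast_map]; simp
    rw [h1, hmap, hfac, eval_mul, hzV]
    simp
  have e2 : (((f.scaleRoots (V : ℤ)).derivative.eval z : ℤ) : ℚ) ≠ 0 := by
    have h1 : (((f.scaleRoots (V : ℤ)).derivative.eval z : ℤ) : ℚ) =
        ((f.scaleRoots (V : ℤ)).map (Int.castRingHom ℚ)).derivative.eval (z : ℚ) := by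
      rw [derivative_map, eval_intCast_map]; simp
    rw [h1, hmap, hfac, derivative_mul, hzV]
    simp only [derivative_sub, derivative_X, derivative_C, sub_zero, one_mul, eval_add, eval_mul,
      eval_sub, eval_X, eval_C, sub_self, zero_mul, add_zero]
    rw [mul_comm q, scaleRoots_eval_mul]
    exact mul_ne_zero (pow_ne_zero _ hV0) hpq
  constructor
  · rw [eval_mul, eval_C]
    have : (f.scaleRoots (V : ℤ)).eval z = 0 := by exact_mod_cast e1
    rw [this, mul_zero]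
  · rw [derivative_C_mul, eval_mul, eval_C]
    refine mul_ne_zero (by exact_mod_cast hV.ne') ?_
    exact_mod_cast e2

theorem hom_scale {f : ℤ[X]} (V : ℕ) (hV : 0 < V) (x z : ℤ) :
    hom (C (V : ℤ) * f.scaleRoots V) ((V : ℤ) * x) z = (V : ℤ) ^ (f.natDegree + 1) * hom f x z := by
  unfold hom
  have hV0 : (V : ℤ) ≠ 0 := by exact_mod_cast hV.ne'
  rw [mul_scaleRoots_of_noZeroDivisors, scaleRoots_C, eval_mul, eval_C, ← scaleRoots_mul, mul_comm (V : ℤ) z,
    scaleRoots_mul, scaleRoots_eval_mul, natDegree_scaleRoots]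
  ring

/-- **Theorem.** -/
theorem main {f : ℤ[X]} (hf : Odd f.natDegree) {q : Fin 4 → ℚ} (hq : Function.Injective q)
    (hroot : ∀ i, (f.map (Int.castRingHom ℚ)).eval (q i) = 0)
    (hsimple : ∀ i, (f.map (Int.castRingHom ℚ)).derivative.eval (q i) ≠ 0) (ε : ℝ) (hε : 0 < ε) :
    ∃ C : ℝ, 0 ≤ C ∧ ∀ N : ℕ, 1 ≤ N → ∀ S : Finset ℤ, (∀ D ∈ S, Squarefree D ∧
      D.natAbs ≤ N ∧ ∃ x y : ℤ, y ≠ 0 ∧ y ^ 2 = hom f x D) →
      (S.card : ℝ) ≤ C * (N : ℝ) ^ ((5 : ℝ) / 6 + ε) := by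
  obtain ⟨V, hV⟩ : ∃ V : ℕ, V = ∏ i, (q i).den := ⟨_, rfl⟩
  have hV0 : 0 < V := by rw [hV]; exact Finset.prod_pos fun i _ => (q i).den_pos
  have hV0' : (V : ℚ) ≠ 0 := by exact_mod_cast hV0.ne'
  have hz : ∀ i, ∃ z : ℤ, (z : ℚ) = V * q i := by
    intro i
    obtain ⟨k, hk⟩ : (q i).den ∣ V := by rw [hV]; exact Finset.dvd_prod_of_mem _ (Finset.mem_univ i)
    refine ⟨k * (q i).num, ?_⟩
    rw [hk]
    push_cast
    have := Rat.mul_den_eq_num (q i)
    calc (k : ℚ) * ((q i).num : ℚ) = k * (q i * (q i).den) := by rw [this]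
      _ = _ := by ring
  choose z hz using hz
  have hzinj : Function.Injective z := by
    intro i j hij
    apply hq
    have h1 : (V : ℚ) * q i = V * q j := by rw [← hz, ← hz, hij]
    exact mul_left_cancel₀ hV0' h1
  have hdeg : (C (V : ℤ) * f.scaleRoots V).natDegree = f.natDegree := by
    rw [natDegree_C_mul (by exact_mod_cast hV0.ne'), natDegree_scaleRoots]
  obtain ⟨C₀, hC₀, h⟩ := main_int (f := C (V : ℤ) * f.scaleRoots V) (by rw [hdeg]; exact hf) hzinj
    (fun i => (to_int V hV0 (q i) (z i) (hz i) (hroot i) (hsimple i)).1)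
    (fun i => (to_int V hV0 (q i) (z i) (hz i) (hroot i) (hsimple i)).2) ε hε
  refine ⟨C₀, hC₀, fun N hN S hS => h N hN S fun D hD => ?_⟩
  obtain ⟨h1, h2, x, y, h3, h4⟩ := hS D hD
  refine ⟨h1, h2, V * x, (V : ℤ) ^ ((f.natDegree + 1) / 2) * y, ?_, ?_⟩
  · exact mul_ne_zero (pow_ne_zero _ (by exact_mod_cast hV0.ne')) h3
  · rw [hom_scale V hV0, mul_pow, h4, ← pow_mul]
    congr 2
    obtain ⟨k, hk⟩ := hf
    omega

end Pool.Agent.H49SH
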